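import Pool.Agent.H74.ZC.Fub

/-!
The flow on a mapping torus, twisted maps of mapping tori, and the key lemma on self-maps of
mapping tori.
-/

open Topology unitInterval Set

namespace Pool.H74

open Fam

namespace MT

variable {A A' : Type} [TopologicalSpace A] [TopologicalSpace A']

/-- The average of two parameters. -/
noncomputable def avg (s t : I) : I := ⟨((s : ℝ) + t) / 2, by
  have h1 := s.2.1; have h2 := s.2.2; have h3 := t.2.1; have h4 := t.2.2
  constructor <;> linarith⟩

theorem continuous_avg : Continuous fun p : I × I => avg p.1 p.2 := by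
  unfold avg; fun_prop

/-- The flow on a mapping torus. -/
noncomputable def flow (α : C(A, A)) : C(MT α × I, MT α) :=
  ZC.descI (ZC.hdl _ _)
    ((cat (ZC.hdl (.id A) α) (pre (ZC.hdl (.id A) α) α) (by intro w; simp)).comp
      ⟨fun p : (A × I) × I => (p.1.1, avg p.1.2 p.2),
        (continuous_fst.comp continuous_fst).prodMk (continuous_avg.comp
          ((continuous_snd.comp continuous_fst).prodMk continuous_snd))⟩)
    (by
      intro x t
      change cat (ZC.hdl (.id A) α) (pre (ZC.hdl (.id A) α) α) (by intro w; simp) (x, avg 0 t) = _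
      have h : ((avg 0 t : I) : ℝ) ≤ 1 / 2 := by
        have := t.2.2; simp only [avg]; change (((0 : I) : ℝ) + t) / 2 ≤ 1 / 2; simp; linarith
      rw [cat_of_le h]
      congr 2
      have : 2 * ((avg 0 t : I) : ℝ) = t := by simp [avg]; ring
      rw [this, projIcc_val])
    (by
      intro x t
      change cat (ZC.hdl (.id A) α) (pre (ZC.hdl (.id A) α) α) (by intro w; simp) (x, avg 1 t) = _
      have h : 1 / 2 ≤ ((avg 1 t : I) : ℝ) := by
        have := t.2.1; change 1 / 2 ≤ (((1 : I) : ℝ) + t) / 2; simp; linarith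
      rw [cat_of_ge h]
      have : 2 * ((avg 1 t : I) : ℝ) - 1 = t := by simp [avg]; ring
      rw [this, projIcc_val]
      rfl)

@[simp] theorem flow_inA (α : C(A, A)) (x : A) (t : I) :
    flow α (ZC.inA _ _ x, t) = ZC.hdl _ _ (x, t) := rfl

theorem flow_hdl (α : C(A, A)) (x : A) (s t : I) : flow α (ZC.hdl _ _ (x, s), t) =
    cat (ZC.hdl (.id A) α) (pre (ZC.hdl (.id A) α) α) (by intro w; simp) (x, avg s t) := rfl

@[simp] theorem flow_zero (α : C(A, A)) (x : MT α) : flow α (x, 0) = x := by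
  induction x using ZC.ind with
  | h1 x => simp
  | h2 x s =>
    rw [flow_hdl]
    have h : ((avg s 0 : I) : ℝ) ≤ 1 / 2 := by
      have := s.2.2; change ((s : ℝ) + (0 : I)) / 2 ≤ 1 / 2; simp; linarith
    rw [cat_of_le h]
    congr 2
    have : 2 * ((avg s 0 : I) : ℝ) = s := by simp [avg]; ring
    rw [this, projIcc_val]

@[simp] theorem flow_one (α : C(A, A)) (x : MT α) :
    flow α (x, 1) = map (α := α) (α' := α) α (fun _ => rfl) x := by
  induction x using ZC.ind with
  | h1 x => simp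
  | h2 x s =>
    rw [flow_hdl]
    have h : 1 / 2 ≤ ((avg s 1 : I) : ℝ) := by
      have := s.2.1; change 1 / 2 ≤ ((s : ℝ) + (1 : I)) / 2; simp; linarith
    rw [cat_of_ge h]
    have : 2 * ((avg s 1 : I) : ℝ) - 1 = s := by simp [avg]; ring
    rw [this, projIcc_val]
    rfl

theorem map_flow {α : C(A, A)} {α' : C(A', A')} (g : C(A, A')) (h : ∀ x, g (α x) = α' (g x))
    (x : MT α) (t : I) : map g h (flow α (x, t)) = flow α' (map g h x, t) := by
  induction x using ZC.ind with
  | h1 x => rfl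
  | h2 x s =>
    rw [map_hdl, flow_hdl, flow_hdl, ← ContinuousMap.comp_apply, comp_cat]
    by_cases hs : ((avg s t : I) : ℝ) ≤ 1 / 2
    · rw [cat_of_le hs, cat_of_le hs]; simp
    · rw [cat_of_gt hs, cat_of_gt hs]; simp [h]

/-- The twisted map: on a handle from `x` to `α x`, go along the handle from `g x` to `α' (g x)` and
then along `F` to `g (α x)`. -/
noncomputable def twist {α : C(A, A)} {α' : C(A', A')} (g : C(A, A')) (F : C(A × I, A'))
    (h0 : ∀ x, F (x, 0) = α' (g x)) (h1 : ∀ x, F (x, 1) = g (α x)) : C(MT α, MT α') :=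
  ZC.desc ((ZC.inA _ _).comp g)
    (cat (pre (ZC.hdl _ _) g) ((ZC.inA _ _).comp F) (by intro x; simp [h0]))
    (by intro x; simp) (by intro x; simp [h1])

@[simp] theorem twist_inA {α : C(A, A)} {α' : C(A', A')} (g : C(A, A')) (F : C(A × I, A'))
    (h0 : ∀ x, F (x, 0) = α' (g x)) (h1 : ∀ x, F (x, 1) = g (α x)) (x : A) :
    twist (α := α) (α' := α') g F h0 h1 (ZC.inA _ _ x) = ZC.inA _ _ (g x) := rfl

theorem isHE_twist [LocallyCompactSpace A] [LocallyCompactSpace A'] {α : C(A, A)} {α' : C(A', A')}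
    {g : C(A, A')} (F : C(A' × I, A')) (h0 : ∀ x, F (x, 0) = α' x)
    (h1 : ∀ x, F (g x, 1) = g (α x)) (hg : IsHE g) :
    IsHE (twist (α := α) (α' := α') g (pre F g) (fun x => h0 _) h1) := by
  let α'' : C(A', A') := ⟨fun x => F (x, 1), by fun_prop⟩
  have i1 : IsHE (map (α := α) (α' := α'') g (fun x => (h1 x).symm)) := isHE_map _ hg
  have i2 := ZC.isHE_iota (a := .id A') (b := α'') (a' := .id A') (b' := α') (const (.id A'))
    (rev F) (fun _ => rfl) (fun _ => rfl) (fun x => by simp [α'']) (fun x => by simp [h0])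
  refine IsHE.congr ?_ (i2.comp i1)
  have hc := ZC.cl_iota (a := .id A') (b := α'') (a' := .id A') (b' := α') (const (.id A'))
    (rev F) (fun _ => rfl) (fun _ => rfl) (fun x => by simp [α'']) (fun x => by simp [h0])
  set i := ZC.iota (a := .id A') (b := α'') (a' := .id A') (b' := α') (const (.id A'))
    (rev F) (fun _ => rfl) (fun _ => rfl) (fun x => by simp [α'']) (fun x => by simp [h0]) with hi
  have hcg := congrArg (fun p => p.map (preC _ g)) hc
  simp only [PHQ.map_trans, PHQ.map_symm, cl_preC] at hcg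
  have q1 : ∀ w, (pre (ZC.hdl (.id A') α') g) (w, 0) = (ZC.inA (.id A') α').comp g w := by
    intro w; simp
  have q2 : ∀ w, (pre (ZC.hdl (.id A') α') g) (w, 1) = (ZC.inA (.id A') α').comp (α'.comp g) w := by
    intro w; simp
  have q3 : ∀ w, ((ZC.inA (.id A') α').comp (pre F g)) (w, 0) =
      (ZC.inA (.id A') α').comp (α'.comp g) w := by intro w; simp [h0]
  have q4 : ∀ w, ((ZC.inA (.id A') α').comp (pre F g)) (w, 1) =
      (ZC.inA (.id A') α').comp (α''.comp g) w := fun w => rfl
  have q5 : ∀ w, (pre (ZC.hdl (.id A') α') g) (w, 1) =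
    ((ZC.inA (.id A') α').comp (pre F g)) (w, 0) := fun w => (q2 w).trans (q3 w).symm
  have q6 : ∀ w, (pre (i.comp (ZC.hdl _ _)) g) (w, 0) = (ZC.inA (.id A') α').comp g w := by
    intro w; exact congrArg i (ZC.hdl_zero (g w))
  have q7 : ∀ w, (pre (i.comp (ZC.hdl _ _)) g) (w, 1) = (ZC.inA (.id A') α').comp (α''.comp g) w := by
    intro w; exact congrArg i (ZC.hdl_one (g w))
  have q8 : ∀ w, cat (pre (ZC.hdl (.id A') α') g) ((ZC.inA (.id A') α').comp (pre F g)) q5 (w, 0) =
      (ZC.inA (.id A') α').comp g w := by intro w; rw [cat_zero]; exact q1 w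
  have q9 : ∀ w, cat (pre (ZC.hdl (.id A') α') g) ((ZC.inA (.id A') α').comp (pre F g)) q5 (w, 1) =
      (ZC.inA (.id A') α').comp (α''.comp g) w := by intro w; rw [cat_one]; exact q4 w
  have key : cl (pre (i.comp (ZC.hdl _ _)) g) ((ZC.inA (.id A') α').comp g)
      ((ZC.inA (.id A') α').comp (α''.comp g)) q6 q7 =
      cl (cat (pre (ZC.hdl (.id A') α') g) ((ZC.inA (.id A') α').comp (pre F g)) q5)
      ((ZC.inA (.id A') α').comp g) ((ZC.inA (.id A') α').comp (α''.comp g)) q8 q9 := by
    rw [cl_cat _ _ _ q1 q2 q4]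
    have e1 := cl_rev _ _ q3 q4
    have e2 := cl_const ((ZC.inA (.id A') α').comp g)
    have e3 : (cl (rev ((ZC.inA (.id A') α').comp (pre F g))) ((ZC.inA (.id A') α').comp (α''.comp g))
      ((ZC.inA (.id A') α').comp (α'.comp g)) (fun w => by rw [rev_apply]; simpa using q4 w)
      (fun w => by rw [rev_apply]; simpa using q3 w)).symm =
      cl ((ZC.inA (.id A') α').comp (pre F g)) ((ZC.inA (.id A') α').comp (α'.comp g))
      ((ZC.inA (.id A') α').comp (α''.comp g)) q3 q4 := by
      rw [e1, PHQ.symm_symm]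
    rw [← e3]
    refine Eq.trans hcg ?_
    refine (congrArg (fun p => Path.Homotopic.Quotient.trans p _) e2).trans ?_
    exact Path.Homotopic.Quotient.refl_trans _
  refine ZC.uhl (const ((ZC.inA _ _).comp g)) (fun _ => rfl) (fun _ => rfl)
    (pre (i.comp (ZC.hdl _ _)) g)
    (cat (pre (ZC.hdl (.id A') α') g) ((ZC.inA (.id A') α').comp (pre F g)) q5)
    (const ((ZC.inA _ _).comp g)) (const ((ZC.inA _ _).comp (α''.comp g)))
    ((ZC.inA _ _).comp g) ((ZC.inA _ _).comp (α''.comp g)) ((ZC.inA _ _).comp g)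
    ((ZC.inA _ _).comp (α''.comp g)) (fun _ _ => rfl) (fun _ _ => rfl) (fun _ _ => rfl)
    (fun w _ => congrArg (ZC.inA _ _) (h1 w).symm) q6 q7 (fun _ => rfl) (fun _ => rfl)
    (fun _ => rfl) (fun _ => rfl) q8 q9 ?_
  rw [cl_const, cl_const, Path.Homotopic.Quotient.trans_refl, Path.Homotopic.Quotient.refl_trans]
  exact key

/-! ### The key lemma -/

section Key

variable [LocallyCompactSpace A] (f Ψ : C(A, A)) (α : C(A × I, A))
  (α0 : ∀ x, α (x, 0) = Ψ (Ψ x)) (α1 : ∀ x, α (x, 1) = f x) (hf : ∀ x, Ψ (f x) = f (Ψ x))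

/-- The class of a composite with a family. -/
theorem cl_comp_cat_rev {W Z Z' : Type} [TopologicalSpace W] [TopologicalSpace Z]
    [TopologicalSpace Z'] (g : C(Z, Z')) (q q' : C(W × I, Z)) (x y z : C(W, Z))
    (hx : ∀ w, q (w, 0) = x w) (hy : ∀ w, q (w, 1) = y w) (hx' : ∀ w, q' (w, 0) = x w)
    (hz : ∀ w, q' (w, 1) = z w) (hc : ∀ w, rev q (w, 1) = q' (w, 0))
    (e1 e2) : cl (g.comp (cat (rev q) q' hc)) (g.comp y) (g.comp z) e1 e2 =
      (cl (g.comp q) (g.comp x) (g.comp y) (fun w => congrArg g (hx w))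
        (fun w => congrArg g (hy w))).symm.trans
      (cl (g.comp q') (g.comp x) (g.comp z) (fun w => congrArg g (hx' w))
        (fun w => congrArg g (hz w))) := by
  have r0 : ∀ w, rev q (w, 0) = y w := by intro w; simp [hy]
  have r1 : ∀ w, rev q (w, 1) = x w := by intro w; simp [hx]
  have c1 := cl_cat (q := rev q) (q' := q') (h := hc) y x z r0 r1 hz
  have c2 := cl_rev x y hx hy
  have c3 := congrArg (fun p => p.map (postC W g)) c1
  simp only [PHQ.map_trans, cl_postC] at c3
  refine c3.trans ?_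
  refine congrArg (fun p => Path.Homotopic.Quotient.trans p _) ?_
  have c4 := congrArg (fun p => p.map (postC W g)) c2
  simp only [PHQ.map_symm, cl_postC] at c4
  exact c4

include α0 α1 hf in
theorem key1 (κ : C(A × I, A)) (hκ : κ = cat (rev (f.comp α)) (pre α f)
      (by intro w; simp [α0, hf])) (k0 : ∀ x, κ (x, 0) = f (f x)) (k1 : ∀ x, κ (x, 1) = f (f x)) :
    (map (α := f) (α' := f) (Ψ.comp Ψ) (fun x => by simp [hf])).Homotopic
      (twist (α := f) (α' := f) f κ k0 k1) := by
  set i := ZC.inA (.id A) f with hi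
  set h := ZC.hdl (.id A) f with hh
  have d0 : ∀ x, h (x, 0) = i x := fun x => ZC.hdl_zero x
  have d1 : ∀ x, h (x, 1) = i (f x) := fun x => ZC.hdl_one x
  have hΨ : ∀ x, Ψ (Ψ (f x)) = f (Ψ (Ψ x)) := fun x => by rw [hf, hf]
  have hI := interchange h i (i.comp f) d0 d1 α (Ψ.comp Ψ) f α0 α1
  have c5 : ∀ w, pre h f (w, 1) = i.comp κ (w, 0) := by intro w; simp [d1, k0]
  have g0 : ∀ w, (i.comp (pre α f)) (w, 0) = (i.comp (f.comp (Ψ.comp Ψ))) w := by
    intro w; simp [α0, hΨ]
  have g1 : ∀ w, (i.comp (pre α f)) (w, 1) = (i.comp (f.comp f)) w := by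
    intro w; simp [α1]
  refine ZC.uhl (i.comp α) (fun x => congrArg i (α0 x)) (fun x => congrArg i (α1 x))
    (pre h (Ψ.comp Ψ)) (cat (pre h f) (i.comp κ) c5) (i.comp α) (i.comp (pre α f))
    (i.comp (Ψ.comp Ψ)) (i.comp (f.comp (Ψ.comp Ψ))) (i.comp f) (i.comp (f.comp f))
    (fun _ _ => rfl) (fun _ _ => rfl) (fun _ _ => rfl) (fun _ _ => rfl)
    (fun w => d0 _) (fun w => d1 _) g0 g1
    (fun w => congrArg i (α0 w)) (fun w => congrArg i (α1 w)) (fun w => by rw [cat_zero]; exact d0 _)
    (fun w => by rw [cat_one]; exact congrArg i (k1 w)) ?_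
  have ff0 : ∀ w, (f.comp α) (w, 0) = (f.comp (Ψ.comp Ψ)) w := by intro w; simp [α0]
  have ff1 : ∀ w, (f.comp α) (w, 1) = (f.comp f) w := by intro w; simp [α1]
  have fg0 : ∀ w, (pre α f) (w, 0) = (f.comp (Ψ.comp Ψ)) w := by intro w; simp [α0, hΨ]
  have fg1 : ∀ w, (pre α f) (w, 1) = (f.comp f) w := by intro w; simp [α1]
  have e3 := cl_comp_cat_rev i (f.comp α) (pre α f) _ _ _ ff0 ff1 fg0 fg1
    (by intro w; simp [α0, hf]) (fun w => by rw [← hκ]; exact congrArg i (k0 w))
    (fun w => by rw [← hκ]; exact congrArg i (k1 w))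
  subst hκ
  rw [cl_cat (q := pre h f) (h := c5) (i.comp f) (i.comp (f.comp f)) (i.comp (f.comp f)) (fun w => d0 _) (fun w => d1 _)
    (fun w => congrArg i (k1 w))]
  refine Eq.trans ?_ (congrArg (fun p => Path.Homotopic.Quotient.trans _
    (Path.Homotopic.Quotient.trans _ p)) e3.symm)
  rw [← Path.Homotopic.Quotient.trans_assoc]
  refine Eq.trans ?_ (congrArg (fun p => Path.Homotopic.Quotient.trans p _) hI)
  rw [Path.Homotopic.Quotient.trans_assoc]
  exact congrArg (fun p => Path.Homotopic.Quotient.trans _ p)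
    (PHQ.trans_symm_cancel_left _ _).symm

/-- The commutation hypothesis. -/
def Comm3 (f : C(A, A)) (κ : C(A × I, A)) (k0 : ∀ x, κ (x, 0) = f.comp f x)
    (k1 : ∀ x, κ (x, 1) = f.comp f x) : Prop :=
  (cl (pre κ f) ((f.comp f).comp f) ((f.comp f).comp f) (fun w => k0 _) (fun w => k1 _)).trans
    (cl (f.comp κ) (f.comp (f.comp f)) (f.comp (f.comp f)) (fun w => congrArg f (k0 w))
      (fun w => congrArg f (k1 w))) =
  (cl (f.comp κ) (f.comp (f.comp f)) (f.comp (f.comp f)) (fun w => congrArg f (k0 w))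
      (fun w => congrArg f (k1 w))).trans
  (cl (pre κ f) ((f.comp f).comp f) ((f.comp f).comp f) (fun w => k0 _) (fun w => k1 _))

theorem key2 (κ κ' : C(A × I, A)) (k0 : ∀ x, κ (x, 0) = f.comp f x)
    (k1 : ∀ x, κ (x, 1) = f.comp f x) (k0' : ∀ x, κ' (x, 0) = f.comp f x)
    (k1' : ∀ x, κ' (x, 1) = f.comp f x)
    (hinv : cl κ' (f.comp f) (f.comp f) k0' k1' = (cl κ (f.comp f) (f.comp f) k0 k1).symm)
    (comm : Comm3 f κ k0 k1) :
    ((twist (α := f) (α' := f) f κ k0 k1).comp (twist (α := f) (α' := f) f κ' k0' k1')).Homotopic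
      (map (α := f) (α' := f) (f.comp f) (fun _ => rfl)) := by
  set i := ZC.inA (.id A) f with hi
  set h := ZC.hdl (.id A) f with hh
  have d0 : ∀ x, h (x, 0) = i x := fun x => ZC.hdl_zero x
  have d1 : ∀ x, h (x, 1) = i (f x) := fun x => ZC.hdl_one x
  have c5 : ∀ w, pre h f (w, 1) = i.comp κ (w, 0) := by intro w; simp [d1, k0]
  have c6 : ∀ w, pre h f (w, 1) = i.comp κ' (w, 0) := by intro w; simp [d1, k0']
  have c7 : ∀ w, pre (cat (pre h f) (i.comp κ) c5) f (w, 1) = i.comp (f.comp κ') (w, 0) := by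
    intro w; rw [pre_apply, cat_one]; simp [k1, k0']
  -- the composite on the handle
  have hq : ∀ w t, ((twist (α := f) (α' := f) f κ k0 k1).comp
      (twist (α := f) (α' := f) f κ' k0' k1')) (h (w, t)) =
      cat (pre (cat (pre h f) (i.comp κ) c5) f) (i.comp (f.comp κ')) c7 (w, t) := by
    intro w t
    have := comp_cat (twist (α := f) (α' := f) f κ k0 k1) (pre h f) (i.comp κ') c6
    exact congrArg (fun u : C(A × I, MT f) => u (w, t)) this
  have I1 := interchange h i (i.comp f) d0 d1 κ' (f.comp f) (f.comp f) k0' k1'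
  refine ZC.uhl (i.comp κ') (fun x => congrArg i (k0' x)) (fun x => congrArg i (k1' x))
    (cat (pre (cat (pre h f) (i.comp κ) c5) f) (i.comp (f.comp κ')) c7) (pre h (f.comp f))
    (i.comp κ') (i.comp (pre κ' f)) (i.comp (f.comp f)) (i.comp (f.comp (f.comp f)))
    (i.comp (f.comp f)) (i.comp (f.comp (f.comp f))) hq (fun _ _ => rfl) (fun _ _ => rfl)
    (fun _ _ => rfl) (fun w => by rw [cat_zero, pre_apply, cat_zero]; exact d0 _)
    (fun w => by rw [cat_one]; exact congrArg (fun x => i (f x)) (k1' w))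
    (fun w => congrArg i (k0' _)) (fun w => congrArg i (k1' _)) (fun w => congrArg i (k0' _))
    (fun w => congrArg i (k1' _)) (fun w => d0 _) (fun w => d1 _) ?_
  rw [cl_cat (q' := i.comp (f.comp κ')) (h := c7) (i.comp (f.comp f)) (i.comp (f.comp (f.comp f)))
    (i.comp (f.comp (f.comp f))) (fun w => by rw [pre_apply, cat_zero]; exact d0 _)
    (fun w => by rw [pre_apply, cat_one]; exact congrArg i (k1 _))
    (fun w => congrArg (fun x => i (f x)) (k1' w))]
  have e1 := cl_cat (q := pre (pre h f) f) (q' := pre (i.comp κ) f) (h := fun w => c5 _)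
    (i.comp (f.comp f)) (i.comp (f.comp (f.comp f)))
    (i.comp (f.comp (f.comp f))) (fun w => d0 _) (fun w => d1 _) (fun w => congrArg i (k1 _))
  refine (congrArg (fun p => Path.Homotopic.Quotient.trans (Path.Homotopic.Quotient.trans p _) _)
    e1).trans ?_
  refine Eq.trans ?_ I1
  simp only [Path.Homotopic.Quotient.trans_assoc]
  refine congrArg (fun p => Path.Homotopic.Quotient.trans _ p) ?_
  -- now everything is in the image of `i`
  have m1 := congrArg (fun p => p.map (preC A f)) hinv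
  have m2 := congrArg (fun p => p.map (postC A f)) hinv
  simp only [PHQ.map_symm, cl_preC, cl_postC] at m1 m2
  have key : (cl (pre κ f) (f.comp (f.comp f)) (f.comp (f.comp f)) (fun w => k0 _)
      (fun w => k1 _)).trans ((cl (f.comp κ') (f.comp (f.comp f)) (f.comp (f.comp f))
        (fun w => congrArg f (k0' w)) (fun w => congrArg f (k1' w))).trans
      (cl (pre κ' f) (f.comp (f.comp f)) (f.comp (f.comp f)) (fun w => k0' _) (fun w => k1' _))) =
      cl (f.comp κ') (f.comp (f.comp f)) (f.comp (f.comp f))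
        (fun w => congrArg f (k0' w)) (fun w => congrArg f (k1' w)) := by
    refine (congrArg (fun p => Path.Homotopic.Quotient.trans _
      (Path.Homotopic.Quotient.trans _ p)) m1).trans ?_
    rw [m2]
    have cm : (cl (pre κ f) (f.comp (f.comp f)) (f.comp (f.comp f)) (fun w => k0 _)
      (fun w => k1 _)).trans (cl (f.comp κ) (f.comp (f.comp f)) (f.comp (f.comp f))
      (fun w => congrArg f (k0 w)) (fun w => congrArg f (k1 w))) =
      (cl (f.comp κ) (f.comp (f.comp f)) (f.comp (f.comp f))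
      (fun w => congrArg f (k0 w)) (fun w => congrArg f (k1 w))).trans
      (cl (pre κ f) (f.comp (f.comp f)) (f.comp (f.comp f)) (fun w => k0 _)
      (fun w => k1 _)) := comm
    set p := cl (pre κ f) (f.comp (f.comp f)) (f.comp (f.comp f)) (fun w => k0 _) (fun w => k1 _)
    set q := cl (f.comp κ) (f.comp (f.comp f)) (f.comp (f.comp f))
      (fun w => congrArg f (k0 w)) (fun w => congrArg f (k1 w))
    change p.trans (q.symm.trans p.symm) = q.symm
    apply PHQ.trans_cancel_right (q := p.trans q)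
    rw [Path.Homotopic.Quotient.trans_assoc, Path.Homotopic.Quotient.trans_assoc,
      PHQ.symm_trans_cancel_left, Path.Homotopic.Quotient.symm_trans,
      Path.Homotopic.Quotient.trans_refl, cm, PHQ.symm_trans_cancel_left]
  have key' := congrArg (fun p => p.map (postC A i)) key
  simp only [PHQ.map_trans, cl_postC] at key'
  exact key'

omit [LocallyCompactSpace A] in
theorem Comm3.rev {κ : C(A × I, A)} {k0 : ∀ x, κ (x, 0) = f.comp f x}
    {k1 : ∀ x, κ (x, 1) = f.comp f x} (h : Comm3 f κ k0 k1) :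
    Comm3 f (Fam.rev κ) (fun x => by simpa using k1 x) (fun x => by simpa using k0 x) := by
  have r1 := cl_rev (q := pre κ f) ((f.comp f).comp f) ((f.comp f).comp f) (fun w => k0 _)
    (fun w => k1 _)
  have r2 := cl_rev (q := f.comp κ) (f.comp (f.comp f)) (f.comp (f.comp f))
    (fun w => congrArg f (k0 w)) (fun w => congrArg f (k1 w))
  have h' := congrArg Path.Homotopic.Quotient.symm h
  change (Path.Homotopic.Quotient.trans (cl (pre κ f) (f.comp (f.comp f)) (f.comp (f.comp f)) (fun w => k0 _)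
      (fun w => k1 _)) (cl (f.comp κ) (f.comp (f.comp f)) (f.comp (f.comp f))
      (fun w => congrArg f (k0 w)) (fun w => congrArg f (k1 w)))).symm =
      (Path.Homotopic.Quotient.trans (cl (f.comp κ) (f.comp (f.comp f)) (f.comp (f.comp f))
      (fun w => congrArg f (k0 w)) (fun w => congrArg f (k1 w)))
      (cl (pre κ f) (f.comp (f.comp f)) (f.comp (f.comp f)) (fun w => k0 _)
      (fun w => k1 _))).symm at h'
  rw [PHQ.trans_symm_rev, PHQ.trans_symm_rev] at h'
  unfold Comm3
  change (Path.Homotopic.Quotient.trans (cl (Fam.rev (pre κ f)) (f.comp (f.comp f))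
    (f.comp (f.comp f)) _ _) (cl (Fam.rev (f.comp κ)) (f.comp (f.comp f)) (f.comp (f.comp f)) _ _)) =
    (Path.Homotopic.Quotient.trans (cl (Fam.rev (f.comp κ)) (f.comp (f.comp f))
    (f.comp (f.comp f)) _ _) (cl (Fam.rev (pre κ f)) (f.comp (f.comp f)) (f.comp (f.comp f)) _ _))
  refine (congrArg₂ Path.Homotopic.Quotient.trans r1 r2).trans ?_
  refine Eq.trans ?_ (congrArg₂ Path.Homotopic.Quotient.trans r2 r1).symm
  exact h'.symm

include α0 α1 hf in
/-- The key lemma: if `Ψ` commutes with `f` and `Ψ ∘ Ψ` is suitably homotopic to `f`, then `Ψ`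
induces a homotopy equivalence of the mapping torus of `f`. -/
theorem isHE_of_sq (κ : C(A × I, A)) (hκ : κ = cat (rev (f.comp α)) (pre α f)
      (by intro w; simp [α0, hf])) (k0 : ∀ x, κ (x, 0) = f (f x)) (k1 : ∀ x, κ (x, 1) = f (f x))
      (comm : Comm3 f κ k0 k1) : IsHE (map (α := f) (α' := f) Ψ hf) := by
  have h1 := key1 f Ψ α α0 α1 hf κ hκ k0 k1
  have r := cl_rev (f.comp f) (f.comp f) k0 k1
  have h2 := key2 f κ (Fam.rev κ) k0 k1 (fun x => by simpa using k1 x)
    (fun x => by simpa using k0 x) r comm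
  have h3 := key2 f (Fam.rev κ) κ (fun x => by simpa using k1 x)
    (fun x => by simpa using k0 x) k0 k1 (by rw [r, PHQ.symm_symm]) comm.rev
  have hff : IsHE (map (α := f) (α' := f) (f.comp f) (fun _ => rfl)) := by
    have := (isHE_map_self (α := f)).comp (isHE_map_self (α := f))
    rwa [MT.map_comp] at this
  have e1 := IsHE.two_of_six (IsHE.congr h2.symm hff) (IsHE.congr h3.symm hff)
  have e2 := IsHE.congr h1.symm e1
  rw [← MT.map_comp Ψ Ψ hf hf] at e2
  exact IsHE.two_of_six e2 e2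

end Key

end MT

end Pool.H74
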