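import Mathlib

/-!
Homotopy coequalizers: `ZC a b` is `A` with `W × I` glued on by `a : W → A` at `0` and `b : W → A` at `1`.
-/

open Topology unitInterval Set

namespace Pool.H74

section Core

variable {A W Z : Type} [TopologicalSpace A] [TopologicalSpace W] [TopologicalSpace Z]

/-- The gluing relation of the homotopy coequalizer. -/
inductive ZCRel (a b : C(W, A)) : A ⊕ (W × I) → A ⊕ (W × I) → Prop
  | zero (w : W) : ZCRel a b (.inr (w, 0)) (.inl (a w))
  | one (w : W) : ZCRel a b (.inr (w, 1)) (.inl (b w))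

/-- The homotopy coequalizer of `a, b : W → A`. -/
def ZC (a b : C(W, A)) : Type := Quot (ZCRel a b)

namespace ZC

variable {a b : C(W, A)}

instance : TopologicalSpace (ZC a b) := inferInstanceAs (TopologicalSpace (Quot (ZCRel a b)))

/-- The quotient map. -/
def mk (a b : C(W, A)) : A ⊕ (W × I) → ZC a b := Quot.mk _

theorem isQuotientMap_mk : IsQuotientMap (mk a b) := isQuotientMap_quot_mk

theorem continuous_mk : Continuous (mk a b) := isQuotientMap_mk.continuous

variable (a b) in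
/-- The inclusion of the vertex space. -/
def inA : C(A, ZC a b) := ⟨fun x => mk a b (.inl x), continuous_mk.comp continuous_inl⟩

variable (a b) in
/-- The handle. -/
def hdl : C(W × I, ZC a b) := ⟨fun p => mk a b (.inr p), continuous_mk.comp continuous_inr⟩

@[simp] theorem hdl_zero (w : W) : hdl a b (w, 0) = inA a b (a w) := Quot.sound (.zero w)
@[simp] theorem hdl_one (w : W) : hdl a b (w, 1) = inA a b (b w) := Quot.sound (.one w)

theorem ind {P : ZC a b → Prop} (h1 : ∀ x, P (inA a b x)) (h2 : ∀ w t, P (hdl a b (w, t)))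
    (z : ZC a b) : P z := by
  induction z using Quot.ind with
  | mk z => cases z with
    | inl x => exact h1 x
    | inr p => exact h2 p.1 p.2

/-- Maps out of the homotopy coequalizer. -/
def desc (g : C(A, Z)) (q : C(W × I, Z)) (h0 : ∀ w, q (w, 0) = g (a w))
    (h1 : ∀ w, q (w, 1) = g (b w)) : C(ZC a b, Z) where
  toFun := Quot.lift (Sum.elim g q) (by
    rintro _ _ (w | w)
    · exact h0 w
    · exact h1 w)
  continuous_toFun := by
    apply isQuotientMap_mk.continuous_iff.2
    exact continuous_sum_dom.2 ⟨g.continuous, q.continuous⟩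

@[simp] theorem desc_inA (g : C(A, Z)) (q : C(W × I, Z)) (h0 : ∀ w, q (w, 0) = g (a w))
    (h1 : ∀ w, q (w, 1) = g (b w)) (x : A) : desc g q h0 h1 (inA a b x) = g x := rfl

@[simp] theorem desc_hdl (g : C(A, Z)) (q : C(W × I, Z)) (h0 : ∀ w, q (w, 0) = g (a w))
    (h1 : ∀ w, q (w, 1) = g (b w)) (p : W × I) : desc g q h0 h1 (hdl a b p) = q p := rfl

theorem hom_ext {f f' : C(ZC a b, Z)} (h1 : ∀ x, f (inA a b x) = f' (inA a b x))
    (h2 : ∀ p, f (hdl a b p) = f' (hdl a b p)) : f = f' := by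
  ext z
  induction z using ind with
  | h1 x => exact h1 x
  | h2 w t => exact h2 _

theorem isOpen_iff {s : Set (ZC a b)} :
    IsOpen s ↔ IsOpen (inA a b ⁻¹' s) ∧ IsOpen (hdl a b ⁻¹' s) := by
  rw [← isQuotientMap_mk.isOpen_preimage, isOpen_sum_iff]
  rfl

theorem isClosed_iff {s : Set (ZC a b)} :
    IsClosed s ↔ IsClosed (inA a b ⁻¹' s) ∧ IsClosed (hdl a b ⁻¹' s) := by
  rw [← isQuotientMap_mk.isClosed_preimage, isClosed_sum_iff]
  rfl

theorem continuous_iff {f : ZC a b → Z} :
    Continuous f ↔ Continuous (f ∘ inA a b) ∧ Continuous (f ∘ hdl a b) := by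
  rw [isQuotientMap_mk.continuous_iff, continuous_sum_dom]
  rfl

open Classical in
/-- Normal form of a point: a vertex point, or a point of the open handle. -/
noncomputable def nf : ZC a b → A ⊕ (W × I) :=
  Quot.lift (Sum.elim Sum.inl (fun p => if p.2 = 0 then .inl (a p.1) else
    if p.2 = 1 then .inl (b p.1) else .inr p)) (by
      rintro _ _ (w | w) <;> simp)

@[simp] theorem nf_inA (x : A) : nf (inA a b x) = .inl x := rfl

theorem nf_hdl {w : W} {t : I} (h0 : t ≠ 0) (h1 : t ≠ 1) : nf (hdl a b (w, t)) = .inr (w, t) := by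
  change (if t = 0 then _ else if t = 1 then _ else _ : A ⊕ (W × I)) = _
  simp [h0, h1]

theorem mk_nf (z : ZC a b) : mk a b (nf z) = z := by
  induction z using ind with
  | h1 x => rfl
  | h2 w t =>
    by_cases h0 : t = 0
    · subst h0; rw [hdl_zero]; rfl
    by_cases h1 : t = 1
    · subst h1; rw [hdl_one]; rfl
    rw [nf_hdl h0 h1]; rfl

theorem inA_injective : Function.Injective (inA a b) := fun x y h => by
  simpa using congrArg nf h

theorem inA_inj {x y : A} : inA a b x = inA a b y ↔ x = y := inA_injective.eq_iff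

theorem hdl_ne_inA {w : W} {t : I} (h0 : t ≠ 0) (h1 : t ≠ 1) (x : A) :
    hdl a b (w, t) ≠ inA a b x := fun h => by
  have := congrArg nf h
  rw [nf_hdl h0 h1, nf_inA] at this
  cases this

theorem hdl_inj {w w' : W} {t t' : I} (h0 : t ≠ 0) (h1 : t ≠ 1)
    (h : hdl a b (w, t) = hdl a b (w', t')) : w = w' ∧ t = t' := by
  have := congrArg nf h
  by_cases h0' : t' = 0
  · subst h0'; rw [hdl_zero] at h; exact absurd h (hdl_ne_inA h0 h1 _)
  by_cases h1' : t' = 1
  · subst h1'; rw [hdl_one] at h; exact absurd h (hdl_ne_inA h0 h1 _)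
  rw [nf_hdl h0 h1, nf_hdl h0' h1'] at this
  simpa using this

/-- Every point is a vertex point or a point of the open handle. -/
theorem cases_pt (z : ZC a b) : (∃ x, z = inA a b x) ∨
    ∃ w t, t ≠ 0 ∧ t ≠ 1 ∧ z = hdl a b (w, t) := by
  induction z using ind with
  | h1 x => exact .inl ⟨x, rfl⟩
  | h2 w t =>
    by_cases h0 : t = 0
    · subst h0; rw [hdl_zero]; exact .inl ⟨_, rfl⟩
    by_cases h1 : t = 1
    · subst h1; rw [hdl_one]; exact .inl ⟨_, rfl⟩
    exact .inr ⟨w, t, h0, h1, rfl⟩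

instance [CompactSpace A] [CompactSpace W] : CompactSpace (ZC a b) :=
  ⟨by
    have h : (Set.univ : Set (ZC a b)) = mk a b '' univ := by
      rw [image_univ]; exact (Set.range_eq_univ.2 Quot.mk_surjective).symm
    rw [h]
    exact isCompact_univ.image continuous_mk⟩

/-! ### Open sets -/

/-- The collar neighbourhood of an open set `U` of vertex points:
`U` together with the points `(w,t)`, `t < 1/2`, `a w ∈ U`, and `t > 1/2`, `b w ∈ U`. -/
def collar (a b : C(W, A)) (U : Set A) : Set (ZC a b) :=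
  inA a b '' U ∪ hdl a b '' {p | (p.2 : ℝ) < 1 / 2 ∧ a p.1 ∈ U ∨ 1 / 2 < (p.2 : ℝ) ∧ b p.1 ∈ U}

theorem inA_mem_collar {U : Set A} {x : A} : inA a b x ∈ collar a b U ↔ x ∈ U := by
  constructor
  · rintro (⟨y, hy, h⟩ | ⟨⟨w, t⟩, hp, h⟩)
    · rwa [← inA_inj.1 h]
    · by_cases h0 : t = 0
      · subst h0; rw [hdl_zero] at h; rw [← inA_inj.1 h]
        rcases hp with hp | hp
        · exact hp.2
        · simp at hp; norm_num at hp
      by_cases h1 : t = 1
      · subst h1; rw [hdl_one] at h; rw [← inA_inj.1 h]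
        rcases hp with hp | hp
        · simp at hp; norm_num at hp
        · exact hp.2
      exact absurd h (hdl_ne_inA h0 h1 _)
  · intro h; exact .inl ⟨x, h, rfl⟩

theorem hdl_mem_collar {U : Set A} {w : W} {t : I} : hdl a b (w, t) ∈ collar a b U ↔
    ((t : ℝ) < 1 / 2 ∧ a w ∈ U ∨ 1 / 2 < (t : ℝ) ∧ b w ∈ U) := by
  constructor
  · intro h
    by_cases h0 : t = 0
    · subst h0; rw [hdl_zero, inA_mem_collar] at h; left; simp [h]
    by_cases h1 : t = 1
    · subst h1; rw [hdl_one, inA_mem_collar] at h; right; simp [h]; norm_num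
    rcases h with ⟨y, hy, h⟩ | ⟨⟨w', t'⟩, hp, h⟩
    · exact absurd h.symm (hdl_ne_inA h0 h1 _)
    · obtain ⟨rfl, rfl⟩ := hdl_inj h0 h1 h.symm
      exact hp
  · intro h; exact .inr ⟨(w, t), h, rfl⟩

theorem isOpen_collar {U : Set A} (hU : IsOpen U) : IsOpen (collar a b U) := by
  rw [isOpen_iff]
  constructor
  · convert hU using 1
    ext x; exact inA_mem_collar
  · have : hdl a b ⁻¹' collar a b U =
        {p | (p.2 : ℝ) < 1 / 2 ∧ a p.1 ∈ U ∨ 1 / 2 < (p.2 : ℝ) ∧ b p.1 ∈ U} := by
      ext ⟨w, t⟩; exact hdl_mem_collar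
    rw [this]
    have e1 : IsOpen {p : W × I | (p.2 : ℝ) < 1 / 2} :=
      isOpen_lt (continuous_subtype_val.comp continuous_snd) continuous_const
    have e2 : IsOpen {p : W × I | 1 / 2 < (p.2 : ℝ)} :=
      isOpen_lt continuous_const (continuous_subtype_val.comp continuous_snd)
    exact (e1.inter (hU.preimage (a.continuous.comp continuous_fst))).union
      (e2.inter (hU.preimage (b.continuous.comp continuous_fst)))

theorem isOpen_hdl_image {V : Set (W × I)} (hV : IsOpen V) (h : ∀ p ∈ V, p.2 ≠ 0 ∧ p.2 ≠ 1) :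
    IsOpen (hdl a b '' V) := by
  rw [isOpen_iff]
  constructor
  · convert isOpen_empty using 1
    ext x
    simp only [mem_preimage, mem_image, mem_empty_iff_false, iff_false, not_exists, not_and]
    intro p hp
    exact hdl_ne_inA (h p hp).1 (h p hp).2 x
  · convert hV using 1
    ext p
    simp only [mem_preimage, mem_image]
    constructor
    · rintro ⟨p', hp', e⟩
      obtain ⟨e1, e2⟩ := hdl_inj (h p' hp').1 (h p' hp').2 e
      have : p' = p := Prod.ext e1 e2
      rwa [← this]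
    · intro hp; exact ⟨p, hp, rfl⟩

theorem isOpenEmbedding_hdl : IsOpenEmbedding
    (fun p : W × {t : I // t ≠ 0 ∧ t ≠ 1} => hdl a b (p.1, p.2.1)) := by
  have hI : IsOpen {t : I | t ≠ 0 ∧ t ≠ 1} :=
    (isOpen_compl_singleton (x := (0 : I))).inter (isOpen_compl_singleton (x := (1 : I)))
  have hemb : IsOpenEmbedding (fun p : W × {t : I // t ≠ 0 ∧ t ≠ 1} => (p.1, p.2.1)) :=
    IsOpenEmbedding.id.prodMap hI.isOpenEmbedding_subtypeVal
  refine IsOpenEmbedding.of_continuous_injective_isOpenMap ?_ ?_ ?_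
  · exact (hdl a b).continuous.comp hemb.continuous
  · rintro ⟨w, t⟩ ⟨w', t'⟩ h
    obtain ⟨e1, e2⟩ := hdl_inj t.2.1 t.2.2 h
    exact Prod.ext e1 (Subtype.ext e2)
  · intro s hs
    have : (fun p : W × {t : I // t ≠ 0 ∧ t ≠ 1} => hdl a b (p.1, p.2.1)) '' s =
        hdl a b '' ((fun p : W × {t : I // t ≠ 0 ∧ t ≠ 1} => (p.1, p.2.1)) '' s) := by
      rw [image_image]
    rw [this]
    apply isOpen_hdl_image (hemb.isOpenMap s hs)
    rintro _ ⟨p, _, rfl⟩
    exact p.2.2

theorem isEmbedding_inA : IsEmbedding (inA a b) := by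
  refine ⟨⟨?_⟩, inA_injective⟩
  apply le_antisymm (inA a b).continuous.le_induced
  intro U hU
  exact ⟨collar a b U, isOpen_collar hU, by ext x; exact inA_mem_collar⟩

theorem isClosedEmbedding_inA : IsClosedEmbedding (inA a b) := by
  refine ⟨isEmbedding_inA, ?_⟩
  rw [← isOpen_compl_iff, isOpen_iff]
  constructor
  · convert isOpen_empty using 1
    ext x; simp
  · have : hdl a b ⁻¹' (range (inA a b))ᶜ = {p : W × I | p.2 ≠ 0 ∧ p.2 ≠ 1} := by
      ext ⟨w, t⟩
      simp only [mem_preimage, mem_compl_iff, mem_range, not_exists, mem_ofPred_eq]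
      constructor
      · intro h
        constructor
        · rintro rfl; exact h _ (hdl_zero w).symm
        · rintro rfl; exact h _ (hdl_one w).symm
      · rintro ⟨h0, h1⟩ x e; exact hdl_ne_inA h0 h1 x e.symm
    rw [this]
    exact ((isOpen_compl_singleton (x := (0 : I))).preimage continuous_snd).inter
      ((isOpen_compl_singleton (x := (1 : I))).preimage continuous_snd)

instance [T2Space A] [T2Space W] : T2Space (ZC a b) := by
  -- height function
  have hmid : ∀ (w : W) (t : I), t ≠ 0 → t ≠ 1 → 0 < (t : ℝ) ∧ (t : ℝ) < 1 := fun w t h0 h1 =>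
    ⟨lt_of_le_of_ne t.2.1 (fun e => h0 (Subtype.ext e.symm)),
     lt_of_le_of_ne t.2.2 (fun e => h1 (Subtype.ext e))⟩
  let η : C(ZC a b, ℝ) := desc (.const _ 0)
    ⟨fun p => min (p.2 : ℝ) (1 - p.2), by fun_prop⟩ (by intro w; simp) (by intro w; simp)
  have hη0 : ∀ x, η (inA a b x) = 0 := fun x => rfl
  have hη1 : ∀ w t, η (hdl a b (w, t)) = min (t : ℝ) (1 - t) := fun w t => rfl
  have key : ∀ x (z : ZC a b), η z ≠ 0 → ∃ u v : Set (ZC a b), IsOpen u ∧ IsOpen v ∧
      inA a b x ∈ u ∧ z ∈ v ∧ Disjoint u v := by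
    intro x z hz
    obtain ⟨u, v, hu, hv, h1, h2, h3⟩ := t2_separation (show η (inA a b x) ≠ η z from hz.symm)
    exact ⟨η ⁻¹' u, η ⁻¹' v, hu.preimage η.continuous, hv.preimage η.continuous, h1, h2,
      h3.preimage _⟩
  refine ⟨fun z z' hne => ?_⟩
  rcases cases_pt z with ⟨x, rfl⟩ | ⟨w, t, h0, h1, rfl⟩
  · rcases cases_pt z' with ⟨x', rfl⟩ | ⟨w', t', h0', h1', rfl⟩
    · obtain ⟨u, v, hu, hv, h1, h2, h3⟩ := t2_separation (show x ≠ x' from fun e => hne (by rw [e]))
      refine ⟨collar a b u, collar a b v, isOpen_collar hu, isOpen_collar hv,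
        inA_mem_collar.2 h1, inA_mem_collar.2 h2, ?_⟩
      rw [Set.disjoint_left]
      intro z
      induction z using ind with
      | h1 x => rw [inA_mem_collar, inA_mem_collar]; exact fun a b => Set.disjoint_left.1 h3 a b
      | h2 w t =>
        rw [hdl_mem_collar, hdl_mem_collar]
        rintro (⟨ha, hb⟩ | ⟨ha, hb⟩) (⟨hc, hd⟩ | ⟨hc, hd⟩)
        · exact Set.disjoint_left.1 h3 hb hd
        · linarith
        · linarith
        · exact Set.disjoint_left.1 h3 hb hd
    · apply key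
      rw [hη1]
      have := hmid w' t' h0' h1'
      have : 0 < min (t' : ℝ) (1 - t') := lt_min this.1 (by linarith)
      exact this.ne'
  · have hz : η (hdl a b (w, t)) ≠ 0 := by
      rw [hη1]
      have := hmid w t h0 h1
      have : 0 < min (t : ℝ) (1 - t) := lt_min this.1 (by linarith)
      exact this.ne'
    rcases cases_pt z' with ⟨x', rfl⟩ | ⟨w', t', h0', h1', rfl⟩
    · obtain ⟨u, v, hu, hv, h1, h2, h3⟩ := key x' _ hz
      exact ⟨v, u, hv, hu, h2, h1, h3.symm⟩
    · have hne' : ((w, t) : W × I) ≠ (w', t') := fun e => hne (by rw [e])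
      obtain ⟨u, v, hu, hv, h1', h2', h3'⟩ := t2_separation hne'
      have hI : IsOpen {p : W × I | p.2 ≠ 0 ∧ p.2 ≠ 1} :=
        ((isOpen_compl_singleton (x := (0 : I))).preimage continuous_snd).inter
        ((isOpen_compl_singleton (x := (1 : I))).preimage continuous_snd)
      refine ⟨hdl a b '' (u ∩ {p | p.2 ≠ 0 ∧ p.2 ≠ 1}), hdl a b '' (v ∩ {p | p.2 ≠ 0 ∧ p.2 ≠ 1}),
        isOpen_hdl_image (hu.inter hI) (fun p hp => hp.2),
        isOpen_hdl_image (hv.inter hI) (fun p hp => hp.2), ⟨_, ⟨h1', h0, h1⟩, rfl⟩,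
        ⟨_, ⟨h2', by assumption, by assumption⟩, rfl⟩, ?_⟩
      rw [Set.disjoint_left]
      rintro _ ⟨p, ⟨hp, hp0, hp1⟩, rfl⟩ ⟨p', ⟨hp', _⟩, e⟩
      obtain ⟨e1, e2⟩ := hdl_inj hp0 hp1 e.symm
      have : p = p' := Prod.ext e1 e2
      exact Set.disjoint_left.1 h3' hp (this ▸ hp')

theorem joined_hdl (w : W) (t : I) : Joined (inA a b (a w)) (hdl a b (w, t)) := by
  refine ⟨⟨⟨fun s => hdl a b (w, s * t), ?_⟩, ?_, ?_⟩⟩
  · exact (hdl a b).continuous.comp (by fun_prop)
  · simp
  · simp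

instance [PathConnectedSpace A] : PathConnectedSpace (ZC a b) := by
  obtain ⟨x₀⟩ := (inferInstance : PathConnectedSpace A).nonempty
  have h : ∀ z : ZC a b, Joined (inA a b x₀) z := by
    intro z
    induction z using ind with
    | h1 x =>
      obtain ⟨γ⟩ := PathConnectedSpace.joined x₀ x
      exact ⟨γ.map (inA a b).continuous⟩
    | h2 w t =>
      obtain ⟨γ⟩ := PathConnectedSpace.joined x₀ (a w)
      exact Joined.trans ⟨γ.map (inA a b).continuous⟩ (joined_hdl w t)
  exact ⟨⟨inA a b x₀⟩, fun z z' => (h z).symm.trans (h z')⟩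

/-- Functoriality. -/
def map {A' W' : Type} [TopologicalSpace A'] [TopologicalSpace W'] {a' b' : C(W', A')}
    (g : C(A, A')) (k : C(W, W')) (ha : ∀ w, g (a w) = a' (k w)) (hb : ∀ w, g (b w) = b' (k w)) :
    C(ZC a b, ZC a' b') :=
  desc ((inA a' b').comp g) ((hdl a' b').comp (k.prodMap (.id I)))
    (by intro w; simp [ha]) (by intro w; simp [hb])

@[simp] theorem map_inA {A' W' : Type} [TopologicalSpace A'] [TopologicalSpace W']
    {a' b' : C(W', A')} (g : C(A, A')) (k : C(W, W')) (ha : ∀ w, g (a w) = a' (k w))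
    (hb : ∀ w, g (b w) = b' (k w)) (x : A) : map g k ha hb (inA a b x) = inA a' b' (g x) := rfl

@[simp] theorem map_hdl {A' W' : Type} [TopologicalSpace A'] [TopologicalSpace W']
    {a' b' : C(W', A')} (g : C(A, A')) (k : C(W, W')) (ha : ∀ w, g (a w) = a' (k w))
    (hb : ∀ w, g (b w) = b' (k w)) (w : W) (t : I) :
    map g k ha hb (hdl a b (w, t)) = hdl a' b' (k w, t) := rfl

end ZC

end Core

end Pool.H74
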