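import Pool.Agent.H74.ZC.Tools

/-!
Double mapping cylinders: functoriality, leg insertion, exchange with mapping tori.
-/

open Topology unitInterval Set

namespace Pool.H74

open Fam

section

variable {D V E D' V' E' D'' V'' E'' Z : Type} [TopologicalSpace D] [TopologicalSpace V]
  [TopologicalSpace E] [TopologicalSpace D'] [TopologicalSpace V'] [TopologicalSpace E']
  [TopologicalSpace D''] [TopologicalSpace V''] [TopologicalSpace E''] [TopologicalSpace Z]

/-- The double mapping cylinder of `D ← E → V`. -/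
abbrev DM (c : C(E, D)) (r : C(E, V)) : Type := ZC (inlC.comp c) (inrC.comp r)

namespace DM

variable (c : C(E, D)) (r : C(E, V))

/-- Left end. -/
def inD : C(D, DM c r) := (ZC.inA _ _).comp inlC
/-- Right end. -/
def inV : C(V, DM c r) := (ZC.inA _ _).comp inrC
/-- The cylinder. -/
def cyl : C(E × I, DM c r) := ZC.hdl _ _

@[simp] theorem cyl_zero (e : E) : cyl c r (e, 0) = inD c r (c e) := ZC.hdl_zero e
@[simp] theorem cyl_one (e : E) : cyl c r (e, 1) = inV c r (r e) := ZC.hdl_one e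

variable {c r}

theorem ind {P : DM c r → Prop} (h1 : ∀ x, P (inD c r x)) (h2 : ∀ x, P (inV c r x))
    (h3 : ∀ e t, P (cyl c r (e, t))) (z : DM c r) : P z := by
  induction z using ZC.ind with
  | h1 x =>
    rcases x with x | x
    · exact h1 x
    · exact h2 x
  | h2 e t => exact h3 e t

theorem hom_ext {f f' : C(DM c r, Z)} (h1 : ∀ x, f (inD c r x) = f' (inD c r x))
    (h2 : ∀ x, f (inV c r x) = f' (inV c r x)) (h3 : ∀ p, f (cyl c r p) = f' (cyl c r p)) :
    f = f' := by
  apply ZC.hom_ext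
  · rintro (x | x)
    · exact h1 x
    · exact h2 x
  · exact h3

/-- Maps out of a double mapping cylinder. -/
def desc (f : C(D, Z)) (g : C(V, Z)) (q : C(E × I, Z)) (h0 : ∀ e, q (e, 0) = f (c e))
    (h1 : ∀ e, q (e, 1) = g (r e)) : C(DM c r, Z) := ZC.desc (sumC f g) q h0 h1

@[simp] theorem desc_inD (f : C(D, Z)) (g : C(V, Z)) (q : C(E × I, Z))
    (h0 : ∀ e, q (e, 0) = f (c e)) (h1 : ∀ e, q (e, 1) = g (r e)) (x) :
    desc f g q h0 h1 (inD c r x) = f x := rfl
@[simp] theorem desc_inV (f : C(D, Z)) (g : C(V, Z)) (q : C(E × I, Z))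
    (h0 : ∀ e, q (e, 0) = f (c e)) (h1 : ∀ e, q (e, 1) = g (r e)) (x) :
    desc f g q h0 h1 (inV c r x) = g x := rfl
@[simp] theorem desc_cyl (f : C(D, Z)) (g : C(V, Z)) (q : C(E × I, Z))
    (h0 : ∀ e, q (e, 0) = f (c e)) (h1 : ∀ e, q (e, 1) = g (r e)) (p) :
    desc f g q h0 h1 (cyl c r p) = q p := rfl

/-- Functoriality. -/
def map {c' : C(E', D')} {r' : C(E', V')} (f : C(D, D')) (g : C(V, V')) (k : C(E, E'))
    (h0 : ∀ e, f (c e) = c' (k e)) (h1 : ∀ e, g (r e) = r' (k e)) : C(DM c r, DM c' r') :=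
  ZC.map (sumMapC f g) k (fun e => congrArg Sum.inl (h0 e)) (fun e => congrArg Sum.inr (h1 e))

@[simp] theorem map_inD {c' : C(E', D')} {r' : C(E', V')} (f : C(D, D')) (g : C(V, V'))
    (k : C(E, E')) (h0 : ∀ e, f (c e) = c' (k e)) (h1 : ∀ e, g (r e) = r' (k e)) (x) :
    map (c' := c') (r' := r') f g k h0 h1 (inD c r x) = inD c' r' (f x) := rfl
@[simp] theorem map_inV {c' : C(E', D')} {r' : C(E', V')} (f : C(D, D')) (g : C(V, V'))
    (k : C(E, E')) (h0 : ∀ e, f (c e) = c' (k e)) (h1 : ∀ e, g (r e) = r' (k e)) (x) :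
    map (c' := c') (r' := r') f g k h0 h1 (inV c r x) = inV c' r' (g x) := rfl
@[simp] theorem map_cyl {c' : C(E', D')} {r' : C(E', V')} (f : C(D, D')) (g : C(V, V'))
    (k : C(E, E')) (h0 : ∀ e, f (c e) = c' (k e)) (h1 : ∀ e, g (r e) = r' (k e)) (e t) :
    map (c' := c') (r' := r') f g k h0 h1 (cyl c r (e, t)) = cyl c' r' (k e, t) := rfl

theorem isHE_map [LocallyCompactSpace E] [LocallyCompactSpace E'] {c' : C(E', D')}
    {r' : C(E', V')} {f : C(D, D')} {g : C(V, V')} {k : C(E, E')} (h0 : ∀ e, f (c e) = c' (k e))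
    (h1 : ∀ e, g (r e) = r' (k e)) (hf : IsHE f) (hg : IsHE g) (hk : IsHE k) :
    IsHE (map (c' := c') (r' := r') f g k h0 h1) := ZC.isHE_map _ _ (hf.sumMapC hg) hk

/-- Changing the left leg by a homotopy. -/
noncomputable def slide {c' : C(E, D)} (H : C(E × I, D)) (h0 : ∀ e, H (e, 0) = c e)
    (h1 : ∀ e, H (e, 1) = c' e) : C(DM c r, DM c' r) :=
  ZC.iota (inlC.comp H) (const (inrC.comp r)) (fun e => congrArg Sum.inl (h0 e))
    (fun e => congrArg Sum.inl (h1 e)) (fun _ => rfl) (fun _ => rfl)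

@[simp] theorem slide_inD {c' : C(E, D)} (H : C(E × I, D)) (h0 : ∀ e, H (e, 0) = c e)
    (h1 : ∀ e, H (e, 1) = c' e) (x) : slide (r := r) H h0 h1 (inD c r x) = inD c' r x := rfl

@[simp] theorem slide_inV {c' : C(E, D)} (H : C(E × I, D)) (h0 : ∀ e, H (e, 0) = c e)
    (h1 : ∀ e, H (e, 1) = c' e) (x) : slide (r := r) H h0 h1 (inV c r x) = inV c' r x := rfl

theorem isHE_slide [LocallyCompactSpace E] {c' : C(E, D)} (H : C(E × I, D))
    (h0 : ∀ e, H (e, 0) = c e) (h1 : ∀ e, H (e, 1) = c' e) : IsHE (slide (r := r) H h0 h1) :=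
  ZC.isHE_iota _ _ _ _ _ _

end DM

/-! ### Mapping cylinders -/

/-- The mapping cylinder of `c : V → D`. -/
abbrev Cyl (c : C(V, D)) : Type := DM c (.id V)

namespace Cyl

/-- The projection of the mapping cylinder. -/
def proj (c : C(V, D)) : C(Cyl c, D) := DM.desc (.id D) c (const c) (fun _ => rfl) (fun _ => rfl)

theorem isHE_proj [LocallyCompactSpace V] (c : C(V, D)) : IsHE (proj c) := by
  refine ⟨DM.inD _ _, ?_, ?_⟩
  · have d0 : ∀ v, DM.cyl c (.id V) (v, 0) = (DM.inD c (.id V)).comp c v := fun v => DM.cyl_zero _ _ v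
    have d1 : ∀ v, DM.cyl c (.id V) (v, 1) = DM.inV c (.id V) v := fun v => DM.cyl_one _ _ v
    refine ZC.uhl (sumProdC (const (DM.inD _ _)) (DM.cyl _ _)) ?_ ?_
      (const ((DM.inD _ _).comp c)) (DM.cyl _ _) (const ((DM.inD _ _).comp c)) (DM.cyl _ _)
      ((DM.inD _ _).comp c) ((DM.inD _ _).comp c) ((DM.inD _ _).comp c) (DM.inV _ _)
      (fun _ _ => rfl) (fun _ _ => rfl) (fun _ _ => rfl) (fun _ _ => rfl) (fun _ => rfl)
      (fun _ => rfl) d0 d1 (fun _ => rfl) (fun _ => rfl) d0 d1 rfl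
    · rintro (x | x)
      · rfl
      · exact d0 x
    · rintro (x | x)
      · rfl
      · exact d1 x
  · have : (proj c).comp (DM.inD _ _) = .id D := by ext x; rfl
    rw [this]

end Cyl

/-! ### Leg insertion -/

section Leg

variable {V₂ : Type} [TopologicalSpace V₂]
variable (c : C(V, D)) (f : C(E, V)) (r : C(E, V₂))

/-- The map from the double mapping cylinder of `D ← V → DM f r` to that of `D ← E → V₂`. -/
def legIns : C(DM c (DM.inD f r), DM (c.comp f) r) :=
  DM.desc (DM.inD _ _)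
    (DM.map c (.id _) (.id _) (fun _ => rfl) (fun _ => rfl))
    (const ((DM.inD _ _).comp c)) (fun _ => rfl) (fun _ => rfl)

/-- Comparison of two double mapping cylinders. -/
def legPhi : C(DM ((DM.inV c (.id V)).comp f) r, DM c (DM.inD f r)) :=
  DM.desc (DM.desc (DM.inD _ _) ((DM.inV _ _).comp (DM.inD _ _)) (DM.cyl _ _)
      (fun _ => DM.cyl_zero _ _ _) (fun _ => DM.cyl_one _ _ _))
    ((DM.inV _ _).comp (DM.inV _ _)) ((DM.inV _ _).comp (DM.cyl _ _))
    (by intro e; simp) (by intro e; simp)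

/-- Its inverse. -/
def legPsi : C(DM c (DM.inD f r), DM ((DM.inV c (.id V)).comp f) r) :=
  DM.desc ((DM.inD _ _).comp (DM.inD _ _))
    (DM.desc ((DM.inD _ _).comp (DM.inV _ _)) (DM.inV _ _) (DM.cyl _ _)
      (by intro e; simp) (by intro e; simp))
    ((DM.inD _ _).comp (DM.cyl _ _)) (by intro e; simp) (by intro e; simp)

theorem isHE_legPhi : IsHE (legPhi c f r) := by
  refine IsHE.of_inv_eq (g := legPsi c f r) ?_ ?_
  · apply DM.hom_ext
    · intro x
      induction x using DM.ind with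
      | h1 x => rfl
      | h2 x => rfl
      | h3 e t => rfl
    · intro x; rfl
    · intro x; rfl
  · apply DM.hom_ext
    · intro x; rfl
    · intro x
      induction x using DM.ind with
      | h1 x => rfl
      | h2 x => rfl
      | h3 e t => rfl
    · intro x; rfl

theorem isHE_legIns [LocallyCompactSpace V] [LocallyCompactSpace E] : IsHE (legIns c f r) := by
  refine IsHE.of_comp_right (isHE_legPhi c f r) ?_
  have h : IsHE (DM.map (c := (DM.inV c (.id V)).comp f) (r := r) (c' := c.comp f) (r' := r)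
      (Cyl.proj c) (.id _) (.id _) (fun _ => rfl) (fun _ => rfl)) :=
    DM.isHE_map _ _ (Cyl.isHE_proj c) IsHE.id IsHE.id
  convert h using 1
  apply DM.hom_ext
  · intro x
    induction x using DM.ind with
    | h1 x => rfl
    | h2 x => rfl
    | h3 e t => rfl
  · intro x; rfl
  · intro x; rfl

end Leg

end

end Pool.H74
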