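import Pool.Agent.H74.ZC.Core

/-!
Families of paths `C(W × I, Z)`, their classes in the fundamental groupoid of `C(W, Z)`, and the
homotopy lemma for maps out of a homotopy coequalizer.
-/

open Topology unitInterval Set

namespace Pool.H74

namespace Fam

variable {W W' Z Z' : Type} [TopologicalSpace W] [TopologicalSpace W'] [TopologicalSpace Z]
  [TopologicalSpace Z']

/-- Concatenation of families of paths. -/
noncomputable def cat (q q' : C(W × I, Z)) (h : ∀ w, q (w, 1) = q' (w, 0)) : C(W × I, Z) where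
  toFun p := if (p.2 : ℝ) ≤ 1 / 2 then q (p.1, projIcc 0 1 zero_le_one (2 * (p.2 : ℝ)))
    else q' (p.1, projIcc 0 1 zero_le_one (2 * (p.2 : ℝ) - 1))
  continuous_toFun := by
    refine Continuous.if_le ?_ ?_ (by fun_prop) (by fun_prop) ?_
    · exact q.continuous.comp (by fun_prop)
    · exact q'.continuous.comp (by fun_prop)
    · intro p hp
      rw [hp]
      norm_num
      exact h p.1

theorem cat_of_le {q q' : C(W × I, Z)} {h : ∀ w, q (w, 1) = q' (w, 0)} {w : W} {t : I}
    (ht : (t : ℝ) ≤ 1 / 2) : cat q q' h (w, t) = q (w, projIcc 0 1 zero_le_one (2 * (t : ℝ))) :=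
  if_pos ht

theorem cat_of_gt {q q' : C(W × I, Z)} {h : ∀ w, q (w, 1) = q' (w, 0)} {w : W} {t : I}
    (ht : ¬ (t : ℝ) ≤ 1 / 2) :
    cat q q' h (w, t) = q' (w, projIcc 0 1 zero_le_one (2 * (t : ℝ) - 1)) :=
  if_neg ht

theorem cat_of_ge {q q' : C(W × I, Z)} {h : ∀ w, q (w, 1) = q' (w, 0)} {w : W} {t : I}
    (ht : 1 / 2 ≤ (t : ℝ)) :
    cat q q' h (w, t) = q' (w, projIcc 0 1 zero_le_one (2 * (t : ℝ) - 1)) := by
  rcases eq_or_lt_of_le ht with e | e
  · rw [cat_of_le e.symm.le, ← e]
    norm_num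
    exact h w
  · exact cat_of_gt (not_le.2 e)

@[simp] theorem cat_zero {q q' : C(W × I, Z)} {h : ∀ w, q (w, 1) = q' (w, 0)} (w : W) :
    cat q q' h (w, 0) = q (w, 0) := by
  rw [cat_of_le (by norm_num)]
  simp

@[simp] theorem cat_one {q q' : C(W × I, Z)} {h : ∀ w, q (w, 1) = q' (w, 0)} (w : W) :
    cat q q' h (w, 1) = q' (w, 1) := by
  rw [cat_of_ge (by norm_num)]
  norm_num

/-- Reversal. -/
def rev (q : C(W × I, Z)) : C(W × I, Z) := q.comp ⟨fun p => (p.1, σ p.2), by fun_prop⟩

@[simp] theorem rev_apply (q : C(W × I, Z)) (w : W) (t : I) : rev q (w, t) = q (w, σ t) := rfl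

/-- The constant family. -/
def const (x : C(W, Z)) : C(W × I, Z) := x.comp .fst

@[simp] theorem const_apply (x : C(W, Z)) (p : W × I) : const x p = x p.1 := rfl

/-- Precomposition. -/
def pre (q : C(W × I, Z)) (k : C(W', W)) : C(W' × I, Z) := q.comp (k.prodMap (.id I))

@[simp] theorem pre_apply (q : C(W × I, Z)) (k : C(W', W)) (w : W') (t : I) :
    pre q k (w, t) = q (k w, t) := rfl

theorem comp_cat (f : C(Z, Z')) (q q' : C(W × I, Z)) (h : ∀ w, q (w, 1) = q' (w, 0)) :
    f.comp (cat q q' h) = cat (f.comp q) (f.comp q') (fun w => congrArg f (h w)) := by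
  ext ⟨w, t⟩
  by_cases ht : (t : ℝ) ≤ 1 / 2
  · simp [cat_of_le ht]
  · simp [cat_of_gt ht]

theorem comp_rev (f : C(Z, Z')) (q : C(W × I, Z)) : f.comp (rev q) = rev (f.comp q) := rfl

theorem comp_const (f : C(Z, Z')) (x : C(W, Z)) : f.comp (const x) = const (f.comp x) := rfl

theorem comp_pre (f : C(Z, Z')) (q : C(W × I, Z)) (k : C(W', W)) :
    f.comp (pre q k) = pre (f.comp q) k := rfl

theorem pre_cat (q q' : C(W × I, Z)) (h : ∀ w, q (w, 1) = q' (w, 0)) (k : C(W', W)) :
    pre (cat q q' h) k = cat (pre q k) (pre q' k) (fun w => h (k w)) := rfl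

theorem pre_rev (q : C(W × I, Z)) (k : C(W', W)) : pre (rev q) k = rev (pre q k) := rfl

theorem rev_rev (q : C(W × I, Z)) : rev (rev q) = q := by
  ext ⟨w, t⟩; simp

/-- The path in `C(W, Z)` given by a family. -/
def path (q : C(W × I, Z)) (x y : C(W, Z)) (hx : ∀ w, q (w, 0) = x w)
    (hy : ∀ w, q (w, 1) = y w) : Path x y where
  toFun t := ⟨fun w => q (w, t), by fun_prop⟩
  continuous_toFun := by
    apply ContinuousMap.continuous_of_continuous_uncurry
    exact q.continuous.comp (by fun_prop : Continuous fun p : I × W => (p.2, p.1))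
  source' := by ext w; exact hx w
  target' := by ext w; exact hy w

@[simp] theorem path_apply (q : C(W × I, Z)) (x y : C(W, Z)) (hx : ∀ w, q (w, 0) = x w)
    (hy : ∀ w, q (w, 1) = y w) (t : I) (w : W) : path q x y hx hy t w = q (w, t) := rfl

/-- The class of a family of paths. -/
def cl (q : C(W × I, Z)) (x y : C(W, Z)) (hx : ∀ w, q (w, 0) = x w)
    (hy : ∀ w, q (w, 1) = y w) : Path.Homotopic.Quotient x y := .mk (path q x y hx hy)

theorem cl_cat {q q' : C(W × I, Z)} {h : ∀ w, q (w, 1) = q' (w, 0)} (x y z : C(W, Z))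
    (hx : ∀ w, q (w, 0) = x w) (hy : ∀ w, q (w, 1) = y w) (hz : ∀ w, q' (w, 1) = z w) :
    cl (cat q q' h) x z (fun w => by rw [cat_zero, hx]) (fun w => by rw [cat_one, hz]) =
      (cl q x y hx hy).trans (cl q' y z (fun w => by rw [← h, hy]) hz) := by
  unfold cl
  rw [← Path.Homotopic.Quotient.mk_trans]
  congr 1
  ext t w
  rw [Path.trans_apply, path_apply]
  split_ifs with ht
  · rw [cat_of_le ht, path_apply]
    congr 2
    rw [projIcc_of_mem]
  · rw [cat_of_gt ht, path_apply]
    congr 2
    rw [projIcc_of_mem]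

theorem cl_rev {q : C(W × I, Z)} (x y : C(W, Z)) (hx : ∀ w, q (w, 0) = x w)
    (hy : ∀ w, q (w, 1) = y w) :
    cl (rev q) y x (fun w => by simp [hy]) (fun w => by simp [hx]) = (cl q x y hx hy).symm := by
  unfold cl
  rw [← Path.Homotopic.Quotient.mk_symm]
  congr 1

theorem cl_const (x : C(W, Z)) : cl (const x) x x (fun _ => rfl) (fun _ => rfl) = .refl x := by
  unfold cl
  rw [← Path.Homotopic.Quotient.mk_refl]
  congr 1

theorem cl_comp (f : C(Z, Z')) {q : C(W × I, Z)} (x y : C(W, Z)) (hx : ∀ w, q (w, 0) = x w)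
    (hy : ∀ w, q (w, 1) = y w) :
    cl (f.comp q) (f.comp x) (f.comp y) (fun w => congrArg f (hx w)) (fun w => congrArg f (hy w)) =
      (cl q x y hx hy).map ⟨fun u => f.comp u, ContinuousMap.continuous_postcomp f⟩ := by
  unfold cl
  rw [← Path.Homotopic.Quotient.mk_map]
  congr 1

theorem cl_pre {q : C(W × I, Z)} (x y : C(W, Z)) (hx : ∀ w, q (w, 0) = x w)
    (hy : ∀ w, q (w, 1) = y w) (k : C(W', W)) :
    cl (pre q k) (x.comp k) (y.comp k) (fun w => hx (k w)) (fun w => hy (k w)) =
      (cl q x y hx hy).map ⟨fun u => u.comp k, ContinuousMap.continuous_precomp k⟩ := by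
  unfold cl
  rw [← Path.Homotopic.Quotient.mk_map]
  congr 1

/-- Two families of paths are homotopic relative to the ends. -/
def Rel (q q' : C(W × I, Z)) : Prop :=
  ∃ S : C((W × I) × I, Z), (∀ w t, S ((w, 0), t) = q (w, t)) ∧ (∀ w t, S ((w, 1), t) = q' (w, t)) ∧
    (∀ w s, S ((w, s), 0) = q (w, 0)) ∧ (∀ w s, S ((w, s), 1) = q (w, 1))

theorem cl_eq_of_rel {q q' : C(W × I, Z)} (h : Rel q q') (x y : C(W, Z))
    (hx : ∀ w, q (w, 0) = x w) (hy : ∀ w, q (w, 1) = y w) (hx' : ∀ w, q' (w, 0) = x w)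
    (hy' : ∀ w, q' (w, 1) = y w) : cl q x y hx hy = cl q' x y hx' hy' := by
  obtain ⟨S, h0, h1, h2, h3⟩ := h
  apply Path.Homotopic.Quotient.eq.2
  refine ⟨⟨⟨⟨fun p => ⟨fun w => S ((w, p.1), p.2), by fun_prop⟩, ?_⟩, ?_, ?_⟩, ?_⟩⟩
  · apply ContinuousMap.continuous_of_continuous_uncurry
    exact S.continuous.comp
      (by fun_prop : Continuous fun p : (I × I) × W => ((p.2, p.1.1), p.1.2))
  · intro t; ext w; exact h0 w t
  · intro t; ext w; exact h1 w t
  · rintro s t (rfl | ht)
    · ext w; change S ((w, s), 0) = q (w, 0); rw [h2]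
    · obtain rfl : t = 1 := ht
      ext w; change S ((w, s), 1) = q (w, 1); rw [h3]

theorem rel_of_cl_eq [LocallyCompactSpace W] {q q' : C(W × I, Z)} (x y : C(W, Z))
    (hx : ∀ w, q (w, 0) = x w) (hy : ∀ w, q (w, 1) = y w) (hx' : ∀ w, q' (w, 0) = x w)
    (hy' : ∀ w, q' (w, 1) = y w) (h : cl q x y hx hy = cl q' x y hx' hy') : Rel q q' := by
  obtain ⟨F⟩ := Path.Homotopic.Quotient.exact h
  let S0 : C((I × I) × W, Z) := (F.toContinuousMap : C(I × I, C(W, Z))).uncurry
  have hS0 : ∀ s t w, S0 ((s, t), w) = F (s, t) w := fun s t w => rfl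
  refine ⟨S0.comp ⟨fun p => ((p.1.2, p.2), p.1.1), by fun_prop⟩, ?_, ?_, ?_, ?_⟩
  · intro w t
    change F (0, t) w = _
    rw [F.apply_zero]; rfl
  · intro w t
    change F (1, t) w = _
    rw [F.apply_one]; rfl
  · intro w s
    change F (s, 0) w = _
    rw [Path.Homotopy.source, hx]
  · intro w s
    change F (s, 1) w = _
    rw [Path.Homotopy.target, hy]

end Fam

namespace PHQ

open Path.Homotopic

variable {M N : Type} [TopologicalSpace M] [TopologicalSpace N] {x y z w : M}

theorem trans_symm_cancel_left (p : Path.Homotopic.Quotient x y) (q : Path.Homotopic.Quotient x z) :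
    p.trans (p.symm.trans q) = q := by
  rw [← Path.Homotopic.Quotient.trans_assoc, Path.Homotopic.Quotient.trans_symm,
    Path.Homotopic.Quotient.refl_trans]

theorem symm_trans_cancel_left (p : Path.Homotopic.Quotient y x) (q : Path.Homotopic.Quotient x z) :
    p.symm.trans (p.trans q) = q := by
  rw [← Path.Homotopic.Quotient.trans_assoc, Path.Homotopic.Quotient.symm_trans,
    Path.Homotopic.Quotient.refl_trans]

theorem symm_symm (p : Path.Homotopic.Quotient x y) : p.symm.symm = p := by
  induction p using Path.Homotopic.Quotient.ind with | mk p =>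
  rw [← Path.Homotopic.Quotient.mk_symm, ← Path.Homotopic.Quotient.mk_symm, Path.symm_symm]

theorem trans_symm_rev (p : Path.Homotopic.Quotient x y) (q : Path.Homotopic.Quotient y z) :
    (p.trans q).symm = q.symm.trans p.symm := by
  induction p using Path.Homotopic.Quotient.ind with | mk p =>
  induction q using Path.Homotopic.Quotient.ind with | mk q =>
  rw [← Path.Homotopic.Quotient.mk_trans, ← Path.Homotopic.Quotient.mk_symm, Path.trans_symm]
  rfl

theorem refl_symm (x : M) : (Path.Homotopic.Quotient.refl x).symm = .refl x := by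
  rw [← Path.Homotopic.Quotient.mk_refl, ← Path.Homotopic.Quotient.mk_symm, Path.refl_symm]

theorem map_trans (p : Path.Homotopic.Quotient x y) (q : Path.Homotopic.Quotient y z)
    (f : C(M, N)) : (p.trans q).map f = (p.map f).trans (q.map f) := by
  induction p using Path.Homotopic.Quotient.ind with | mk p =>
  induction q using Path.Homotopic.Quotient.ind with | mk q =>
  rw [← Path.Homotopic.Quotient.mk_trans, ← Path.Homotopic.Quotient.mk_map, Path.map_trans]
  rfl

theorem map_symm (p : Path.Homotopic.Quotient x y) (f : C(M, N)) :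
    p.symm.map f = (p.map f).symm := by
  induction p using Path.Homotopic.Quotient.ind with | mk p => rfl

theorem map_refl (x : M) (f : C(M, N)) :
    (Path.Homotopic.Quotient.refl x).map f = .refl (f x) := by
  rw [← Path.Homotopic.Quotient.mk_refl, ← Path.Homotopic.Quotient.mk_map]
  rfl

theorem trans_cancel_left {p : Path.Homotopic.Quotient x y} {q q' : Path.Homotopic.Quotient y z}
    (h : p.trans q = p.trans q') : q = q' := by
  rw [← symm_trans_cancel_left p q, h, symm_trans_cancel_left]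

theorem trans_cancel_right {p p' : Path.Homotopic.Quotient x y} {q : Path.Homotopic.Quotient y z}
    (h : p.trans q = p'.trans q) : p = p' := by
  have := congrArg (fun u => u.trans q.symm) h
  simpa only [Path.Homotopic.Quotient.trans_assoc, Path.Homotopic.Quotient.trans_symm,
    Path.Homotopic.Quotient.trans_refl] using this

end PHQ

namespace Fam

variable {W W' Z Z' : Type} [TopologicalSpace W] [TopologicalSpace W'] [TopologicalSpace Z]
  [TopologicalSpace Z']

instance contractible_square : ContractibleSpace (I × I) := by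
  apply (contractible_iff_id_nullhomotopic _).2
  refine ⟨(0, 0), ⟨⟨⟨fun p => (σ p.1 * p.2.1, σ p.1 * p.2.2), by fun_prop⟩, ?_, ?_⟩⟩⟩
  · intro p; simp
  · intro p; simp

/-- In any space, the two ways around a square are homotopic. -/
theorem square {M : Type} [TopologicalSpace M] (S : C(I × I, M)) {p00 p01 p10 p11 : M}
    (bot : Path p00 p10) (right : Path p10 p11) (left : Path p00 p01) (top : Path p01 p11)
    (hb : ∀ t, bot t = S (0, t)) (hr : ∀ s, right s = S (s, 1)) (hl : ∀ s, left s = S (s, 0))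
    (ht : ∀ t, top t = S (1, t)) : (Path.Homotopic.Quotient.mk bot).trans (.mk right) =
      (Path.Homotopic.Quotient.mk left).trans (.mk top) := by
  have e00 : p00 = S (0, 0) := by rw [← hb, bot.source]
  have e10 : p10 = S (0, 1) := by rw [← hb, bot.target]
  have e01 : p01 = S (1, 0) := by rw [← ht, top.source]
  have e11 : p11 = S (1, 1) := by rw [← ht, top.target]
  subst e00 e10 e01 e11
  let bot' : Path ((0, 0) : I × I) (0, 1) := ⟨⟨fun t => (0, t), by fun_prop⟩, rfl, rfl⟩
  let right' : Path ((0, 1) : I × I) (1, 1) := ⟨⟨fun t => (t, 1), by fun_prop⟩, rfl, rfl⟩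
  let left' : Path ((0, 0) : I × I) (1, 0) := ⟨⟨fun t => (t, 0), by fun_prop⟩, rfl, rfl⟩
  let top' : Path ((1, 0) : I × I) (1, 1) := ⟨⟨fun t => (1, t), by fun_prop⟩, rfl, rfl⟩
  have hb' : bot = bot'.map S.continuous := by ext t; exact hb t
  have hr' : right = right'.map S.continuous := by ext t; exact hr t
  have hl' : left = left'.map S.continuous := by ext t; exact hl t
  have ht' : top = top'.map S.continuous := by ext t; exact ht t
  have key : (bot'.trans right').Homotopic (left'.trans top') :=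
    SimplyConnectedSpace.paths_homotopic _ _
  rw [← Path.Homotopic.Quotient.mk_trans, ← Path.Homotopic.Quotient.mk_trans,
    Path.Homotopic.Quotient.eq]
  have := key.map S
  rw [Path.map_trans, Path.map_trans] at this
  rwa [hb', hr', hl', ht']

/-- The square lemma for families. -/
theorem cl_square (S : C((W × I) × I, Z)) (x00 x01 x10 x11 : C(W, Z)) (bot right left top)
    (hb : ∀ w t, bot (w, t) = S ((w, 0), t)) (hr : ∀ w s, right (w, s) = S ((w, s), 1))
    (hl : ∀ w s, left (w, s) = S ((w, s), 0)) (ht : ∀ w t, top (w, t) = S ((w, 1), t))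
    (h1 h2 h3 h4 h5 h6 h7 h8) :
    (cl bot x00 x10 h1 h2).trans (cl right x10 x11 h3 h4) =
      (cl left x00 x01 h5 h6).trans (cl top x01 x11 h7 h8) := by
  let T : C(I × I, C(W, Z)) := ⟨fun p => ⟨fun w => S ((w, p.1), p.2), by fun_prop⟩, by
    apply ContinuousMap.continuous_of_continuous_uncurry
    exact S.continuous.comp
      (by fun_prop : Continuous fun p : (I × I) × W => ((p.2, p.1.1), p.1.2))⟩
  refine square T _ _ _ _ ?_ ?_ ?_ ?_
  · intro t; ext w; exact hb w t
  · intro t; ext w; exact hr w t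
  · intro t; ext w; exact hl w t
  · intro t; ext w; exact ht w t

/-- Interchange: for a family `q` of paths over `W` and a homotopy `H` of maps `W' → W`. -/
theorem interchange (q : C(W × I, Z)) (x y : C(W, Z)) (hx : ∀ w, q (w, 0) = x w)
    (hy : ∀ w, q (w, 1) = y w) (H : C(W' × I, W)) (k k' : C(W', W)) (hk : ∀ w, H (w, 0) = k w)
    (hk' : ∀ w, H (w, 1) = k' w) :
    (cl (pre q k) (x.comp k) (y.comp k) (fun w => hx _) (fun w => hy _)).trans
      (cl (y.comp H) (y.comp k) (y.comp k') (fun w => by simp [hk]) (fun w => by simp [hk'])) =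
    (cl (x.comp H) (x.comp k) (x.comp k') (fun w => by simp [hk]) (fun w => by simp [hk'])).trans
      (cl (pre q k') (x.comp k') (y.comp k') (fun w => hx _) (fun w => hy _)) := by
  apply cl_square (S := q.comp (H.prodMap (.id I)))
  · intro w t; simp [hk]
  · intro w s; simp [hy]
  · intro w s; simp [hx]
  · intro w t; simp [hk']

end Fam

namespace ZC

variable {A W Z : Type} [TopologicalSpace A] [TopologicalSpace W] [TopologicalSpace Z]
variable {a b : C(W, A)}

/-- A homotopy of maps out of `ZC a b` from a homotopy on `A` and a compatible one on `W × I`. -/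
theorem homotopic_of_square {f f' : C(ZC a b, Z)} (G : C(A × I, Z)) (S : C((W × I) × I, Z))
    (hG0 : ∀ x, G (x, 0) = f (inA a b x)) (hG1 : ∀ x, G (x, 1) = f' (inA a b x))
    (hS0 : ∀ w t, S ((w, 0), t) = f (hdl a b (w, t)))
    (hS1 : ∀ w t, S ((w, 1), t) = f' (hdl a b (w, t)))
    (hSa : ∀ w s, S ((w, s), 0) = G (a w, s)) (hSb : ∀ w s, S ((w, s), 1) = G (b w, s)) :
    f.Homotopic f' := by
  let H : C(ZC a b, C(I, Z)) := desc G.curry
    (ContinuousMap.curry (S.comp ⟨fun p : (W × I) × I => ((p.1.1, p.2), p.1.2), by fun_prop⟩))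
    (by intro w; ext s; exact hSa w s) (by intro w; ext s; exact hSb w s)
  have hH1 : ∀ x s, H (inA a b x) s = G (x, s) := fun x s => rfl
  have hH2 : ∀ w t s, H (hdl a b (w, t)) s = S ((w, s), t) := fun w t s => rfl
  refine ⟨⟨⟨fun p => H p.2 p.1, ?_⟩, ?_, ?_⟩⟩
  · exact H.uncurry.continuous.comp (by fun_prop : Continuous fun p : I × ZC a b => (p.2, p.1))
  · intro z
    induction z using ind with
    | h1 x => change H (inA a b x) 0 = _; rw [hH1, hG0]
    | h2 w t => change H (hdl a b (w, t)) 0 = _; rw [hH2, hS0]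
  · intro z
    induction z using ind with
    | h1 x => change H (inA a b x) 1 = _; rw [hH1, hG1]
    | h2 w t => change H (hdl a b (w, t)) 1 = _; rw [hH2, hS1]

open Fam

/-- The homotopy lemma: two maps `f, f'` out of `ZC a b` are homotopic if there is a homotopy `G`
between their restrictions to `A` such that the handle classes correspond. -/
theorem homotopic_of_cl [LocallyCompactSpace W] {f f' : C(ZC a b, Z)} (G : C(A × I, Z))
    (hG0 : ∀ x, G (x, 0) = f (inA a b x)) (hG1 : ∀ x, G (x, 1) = f' (inA a b x))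
    (h : (cl (f.comp (hdl a b)) (f.comp ((inA a b).comp a)) (f.comp ((inA a b).comp b))
        (fun w => by simp) (fun w => by simp)).trans
        (cl (pre G b) (f.comp ((inA a b).comp b)) (f'.comp ((inA a b).comp b))
        (fun w => by simp [hG0]) (fun w => by simp [hG1])) =
      (cl (pre G a) (f.comp ((inA a b).comp a)) (f'.comp ((inA a b).comp a))
        (fun w => by simp [hG0]) (fun w => by simp [hG1])).trans
        (cl (f'.comp (hdl a b)) (f'.comp ((inA a b).comp a)) (f'.comp ((inA a b).comp b))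
        (fun w => by simp) (fun w => by simp))) :
    f.Homotopic f' := by
  -- the truncated homotopies
  let Ga : C((W × I) × I, Z) := ⟨fun p => G (a p.1.1, ⟨(p.1.2 : ℝ) + p.2 * (1 - p.1.2), by
    have h1 := p.1.2.2.1; have h2 := p.1.2.2.2; have h3 := p.2.2.1; have h4 := p.2.2.2
    constructor
    · nlinarith
    · nlinarith⟩), by fun_prop⟩
  let Gb : C((W × I) × I, Z) := ⟨fun p => G (b p.1.1, ⟨(p.1.2 : ℝ) + p.2 * (1 - p.1.2), by
    have h1 := p.1.2.2.1; have h2 := p.1.2.2.2; have h3 := p.2.2.1; have h4 := p.2.2.2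
    constructor
    · nlinarith
    · nlinarith⟩), by fun_prop⟩
  have hGa1 : ∀ w s, Ga ((w, s), 1) = G (a w, 1) := by
    intro w s; simp only [Ga, ContinuousMap.coe_mk]; congr 2; ext; simp
  have hGb1 : ∀ w s, Gb ((w, s), 1) = G (b w, 1) := by
    intro w s; simp only [Gb, ContinuousMap.coe_mk]; congr 2; ext; simp
  have hGa0 : ∀ w s, Ga ((w, s), 0) = G (a w, s) := by
    intro w s; simp only [Ga, ContinuousMap.coe_mk]; congr 2; ext; simp
  have hGb0 : ∀ w s, Gb ((w, s), 0) = G (b w, s) := by
    intro w s; simp only [Gb, ContinuousMap.coe_mk]; congr 2; ext; simp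
  have hGa0' : ∀ w t, Ga ((w, 0), t) = G (a w, t) := by
    intro w t; simp only [Ga, ContinuousMap.coe_mk]; congr 2; ext; simp
  have hGb0' : ∀ w t, Gb ((w, 0), t) = G (b w, t) := by
    intro w t; simp only [Gb, ContinuousMap.coe_mk]; congr 2; ext; simp
  have hGa1' : ∀ w t, Ga ((w, 1), t) = G (a w, 1) := by
    intro w t; simp only [Ga, ContinuousMap.coe_mk]; congr 2; ext; simp
  have hGb1' : ∀ w t, Gb ((w, 1), t) = G (b w, 1) := by
    intro w t; simp only [Gb, ContinuousMap.coe_mk]; congr 2; ext; simp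
  let q'' : C((W × I) × I, Z) := pre (f'.comp (hdl a b)) ⟨fun p : W × I => p.1, by fun_prop⟩
  have hq'' : ∀ w s t, q'' ((w, s), t) = f' (hdl a b (w, t)) := fun w s t => rfl
  -- the big square
  have c1 : ∀ w : W × I, Ga (w, 1) = q'' (w, 0) := by
    rintro ⟨w, s⟩; rw [hGa1, hq'', hG1, hdl_zero]
  have c2 : ∀ w : W × I, cat Ga q'' c1 (w, 1) = rev Gb (w, 0) := by
    rintro ⟨w, s⟩; simp [hGb1, hq'', hG1]
  let S : C((W × I) × I, Z) := cat (cat Ga q'' c1) (rev Gb) c2
  -- its bottom
  let i0 : C(W, W × I) := ⟨fun w => (w, 0), by fun_prop⟩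
  let i1 : C(W, W × I) := ⟨fun w => (w, 1), by fun_prop⟩
  let m : C(ZC a b, Z) := desc (f.comp (inA a b)) (pre S i0)
    (by intro w; change S ((w, 0), 0) = _; simp only [S, cat_zero, hGa0, hG0]; rfl)
    (by intro w; change S ((w, 0), 1) = _
        simp only [S, cat_one, rev_apply, symm_one, hGb0, hG0]; rfl)
  let m' : C(ZC a b, Z) := desc (f'.comp (inA a b)) (pre S i1)
    (by intro w; change S ((w, 1), 0) = _; simp only [S, cat_zero, hGa0, hG1]; rfl)
    (by intro w; change S ((w, 1), 1) = _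
        simp only [S, cat_one, rev_apply, symm_one, hGb0, hG1]; rfl)
  have hm : m.Homotopic m' := by
    refine homotopic_of_square G S hG0 hG1 (fun _ _ => rfl) (fun _ _ => rfl) ?_ ?_
    · intro w s; simp only [S, cat_zero, hGa0]
    · intro w s; simp only [S, cat_one, rev_apply, symm_one, hGb0]
  -- relative homotopies on the handle
  have relh : ∀ (u u' : C(ZC a b, Z)), (∀ x, u (inA a b x) = u' (inA a b x)) →
      Rel (u.comp (hdl a b)) (u'.comp (hdl a b)) → u.Homotopic u' := by
    rintro u u' hu ⟨S', h0, h1, h2, h3⟩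
    refine homotopic_of_square (.comp (u.comp (inA a b)) .fst) S' (fun _ => rfl) hu h0 h1 ?_ ?_
    · intro w s; rw [h2]; simp
    · intro w s; rw [h3]; simp
  have e1 : cl (pre S i0) (f.comp ((inA a b).comp a)) (f.comp ((inA a b).comp b))
      (by intro w; change S ((w, 0), 0) = _; simp only [S, cat_zero, hGa0, hG0]; rfl)
      (by intro w; change S ((w, 0), 1) = _
          simp only [S, cat_one, rev_apply, symm_one, hGb0, hG0]; rfl) =
      ((cl (pre G a) (f.comp ((inA a b).comp a)) (f'.comp ((inA a b).comp a))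
        (fun w => by simp [hG0]) (fun w => by simp [hG1])).trans
        (cl (f'.comp (hdl a b)) (f'.comp ((inA a b).comp a)) (f'.comp ((inA a b).comp b))
        (fun w => by simp) (fun w => by simp))).trans
        (cl (pre G b) (f.comp ((inA a b).comp b)) (f'.comp ((inA a b).comp b))
        (fun w => by simp [hG0]) (fun w => by simp [hG1])).symm := by
    rw [← cl_rev]
    have e2 : pre S i0 = cat (cat (pre G a) (f'.comp (hdl a b)) (fun w => by simp [hG1]))
        (rev (pre G b)) (fun w => by simp [hG1]) := by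
      simp only [S, pre_cat]
      congr 1
      · congr 1
        ext ⟨w, t⟩; exact hGa0' w t
      · ext ⟨w, t⟩; exact hGb0' w _
    simp only [e2]
    rw [cl_cat (f.comp ((inA a b).comp a)) (f'.comp ((inA a b).comp b))
      (f.comp ((inA a b).comp b)) (by intro w; simp [hG0]) (by intro w; simp)
      (by intro w; simp [hG0]),
      cl_cat (f.comp ((inA a b).comp a)) (f'.comp ((inA a b).comp a))
      (f'.comp ((inA a b).comp b)) (by intro w; simp [hG0]) (by intro w; simp [hG1])
      (by intro w; simp)]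
  have e3 : f.Homotopic m := by
    apply relh f m (fun _ => rfl)
    apply rel_of_cl_eq (f.comp ((inA a b).comp a)) (f.comp ((inA a b).comp b))
      (by intro w; simp) (by intro w; simp)
      (by intro w; change S ((w, 0), 0) = _; simp only [S, cat_zero, hGa0, hG0]; rfl)
      (by intro w; change S ((w, 0), 1) = _
          simp only [S, cat_one, rev_apply, symm_one, hGb0, hG0]; rfl)
    change _ = cl (pre S i0) _ _ _ _
    rw [e1, ← h, Path.Homotopic.Quotient.trans_assoc, Path.Homotopic.Quotient.trans_symm,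
      Path.Homotopic.Quotient.trans_refl]
  have e4 : m'.Homotopic f' := by
    apply relh m' f' (fun _ => rfl)
    apply rel_of_cl_eq (f'.comp ((inA a b).comp a)) (f'.comp ((inA a b).comp b))
      (by intro w; change S ((w, 1), 0) = _; simp only [S, cat_zero, hGa0, hG1]; rfl)
      (by intro w; change S ((w, 1), 1) = _
          simp only [S, cat_one, rev_apply, symm_one, hGb0, hG1]; rfl)
      (by intro w; simp) (by intro w; simp)
    change cl (pre S i1) _ _ _ _ = _
    have c3 : ∀ w, Fam.const (f'.comp ((inA a b).comp a)) (w, 1) = (f'.comp (hdl a b)) (w, 0) := by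
      intro w; simp
    have c4 : ∀ w, cat (Fam.const (f'.comp ((inA a b).comp a))) (f'.comp (hdl a b)) c3 (w, 1) =
        Fam.const (f'.comp ((inA a b).comp b)) (w, 0) := by
      intro w; rw [cat_one]; simp
    have c5 : ∀ w, cat (Fam.const (f'.comp ((inA a b).comp a))) (f'.comp (hdl a b)) c3 (w, 0) =
        f'.comp ((inA a b).comp a) w := by
      intro w; rw [cat_zero]; rfl
    have e2 : pre S i1 = cat (cat (Fam.const (f'.comp ((inA a b).comp a))) (f'.comp (hdl a b))
        c3) (Fam.const (f'.comp ((inA a b).comp b))) c4 := by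
      simp only [S, pre_cat]
      congr 1
      · congr 1
        ext ⟨w, t⟩; exact (hGa1' w t).trans (hG1 _)
      · ext ⟨w, t⟩; exact (hGb1' w _).trans (hG1 _)
    simp only [e2]
    rw [cl_cat (f'.comp ((inA a b).comp a)) (f'.comp ((inA a b).comp b))
      (f'.comp ((inA a b).comp b)) c5 c4 (fun _ => rfl),
      cl_cat (f'.comp ((inA a b).comp a)) (f'.comp ((inA a b).comp a))
      (f'.comp ((inA a b).comp b)) (fun _ => rfl) (fun _ => rfl)
      (by intro w; simp), cl_const, cl_const, Path.Homotopic.Quotient.trans_refl,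
      Path.Homotopic.Quotient.refl_trans]
  exact e3.trans (hm.trans e4)

/-- The homotopy lemma with all families named. -/
theorem uhl [LocallyCompactSpace W] {f f' : C(ZC a b, Z)} (G : C(A × I, Z))
    (hG0 : ∀ x, G (x, 0) = f (inA a b x)) (hG1 : ∀ x, G (x, 1) = f' (inA a b x))
    (qf qf' ga gb : C(W × I, Z)) (x0 x1 y0 y1 : C(W, Z))
    (e1 : ∀ w t, f (hdl a b (w, t)) = qf (w, t)) (e2 : ∀ w t, f' (hdl a b (w, t)) = qf' (w, t))
    (e3 : ∀ w t, G (a w, t) = ga (w, t)) (e4 : ∀ w t, G (b w, t) = gb (w, t))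
    (h1 : ∀ w, qf (w, 0) = x0 w) (h2 : ∀ w, qf (w, 1) = x1 w)
    (h3 : ∀ w, gb (w, 0) = x1 w) (h4 : ∀ w, gb (w, 1) = y1 w)
    (h5 : ∀ w, ga (w, 0) = x0 w) (h6 : ∀ w, ga (w, 1) = y0 w)
    (h7 : ∀ w, qf' (w, 0) = y0 w) (h8 : ∀ w, qf' (w, 1) = y1 w)
    (h : (cl qf x0 x1 h1 h2).trans (cl gb x1 y1 h3 h4) =
      (cl ga x0 y0 h5 h6).trans (cl qf' y0 y1 h7 h8)) : f.Homotopic f' := by
  obtain rfl : f.comp (hdl a b) = qf := by ext ⟨w, t⟩; exact e1 w t
  obtain rfl : f'.comp (hdl a b) = qf' := by ext ⟨w, t⟩; exact e2 w t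
  obtain rfl : pre G a = ga := by ext ⟨w, t⟩; exact e3 w t
  obtain rfl : pre G b = gb := by ext ⟨w, t⟩; exact e4 w t
  obtain rfl : f.comp ((inA a b).comp a) = x0 := by ext w; rw [← h1]; simp
  obtain rfl : f.comp ((inA a b).comp b) = x1 := by ext w; rw [← h2]; simp
  obtain rfl : f'.comp ((inA a b).comp a) = y0 := by ext w; rw [← h7]; simp
  obtain rfl : f'.comp ((inA a b).comp b) = y1 := by ext w; rw [← h8]; simp
  exact homotopic_of_cl G hG0 hG1 h

end ZC

end Pool.H74
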