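import Pool.Agent.H74.ZC.HS

/-!
Exchange of mapping tori with double mapping cylinders.
-/

open Topology unitInterval Set

namespace Pool.H74

open Fam

section

variable {D V E Z T : Type} [TopologicalSpace D] [TopologicalSpace V] [TopologicalSpace E]
  [TopologicalSpace Z] [TopologicalSpace T] {c : C(E, D)} {r : C(E, V)}

/-- Maps out of `DM c r × T`. -/
def DM.descI [LocallyCompactSpace T] (f : C(D × T, Z)) (g : C(V × T, Z)) (q : C((E × I) × T, Z))
    (h0 : ∀ e t, q ((e, 0), t) = f (c e, t)) (h1 : ∀ e t, q ((e, 1), t) = g (r e, t)) :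
    C(DM c r × T, Z) := ZC.descI (sumProdC f g) q h0 h1

variable {αD : C(D, D)} {αV : C(V, V)} {αE : C(E, E)} (hc : ∀ e, αD (c e) = c (αE e))
  (hr : ∀ e, αV (r e) = r (αE e))

/-- The exchange map. -/
def fub : C(MT (DM.map (c := c) (r := r) αD αV αE hc hr),
    DM (MT.map c (fun e => (hc e).symm)) (MT.map r (fun e => (hr e).symm))) :=
  ZC.desc (DM.map (ZC.inA _ _) (ZC.inA _ _) (ZC.inA _ _) (fun _ => rfl) (fun _ => rfl))
    (DM.descI ((DM.inD _ _).comp (ZC.hdl _ _)) ((DM.inV _ _).comp (ZC.hdl _ _))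
      ((DM.cyl _ _).comp ⟨fun p : (E × I) × I => (ZC.hdl (.id E) αE (p.1.1, p.2), p.1.2),
        by fun_prop⟩) (fun e t => by simp) (fun e t => by simp))
    (fun x => by
      induction x using DM.ind with
      | h1 x => exact congrArg (DM.inD _ _) (ZC.hdl_zero x)
      | h2 x => exact congrArg (DM.inV _ _) (ZC.hdl_zero x)
      | h3 e t => exact congrArg (fun y => DM.cyl _ _ (y, t)) (ZC.hdl_zero e))
    (fun x => by
      induction x using DM.ind with
      | h1 x => exact congrArg (DM.inD _ _) (ZC.hdl_one x)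
      | h2 x => exact congrArg (DM.inV _ _) (ZC.hdl_one x)
      | h3 e t => exact congrArg (fun y => DM.cyl _ _ (y, t)) (ZC.hdl_one e))

/-- The inverse exchange map. -/
def fubInv : C(DM (MT.map (α := αE) (α' := αD) c (fun e => (hc e).symm))
      (MT.map (α := αE) (α' := αV) r (fun e => (hr e).symm)),
    MT (DM.map (c := c) (r := r) αD αV αE hc hr)) :=
  DM.desc (MT.map (DM.inD _ _) (fun _ => rfl)) (MT.map (DM.inV _ _) (fun _ => rfl))
    (ZC.descI ((ZC.inA _ _).comp (DM.cyl _ _))
      ((ZC.hdl _ _).comp ⟨fun p : (E × I) × I => (DM.cyl c r (p.1.1, p.2), p.1.2), by fun_prop⟩)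
      (fun e t => ZC.hdl_zero _) (fun e t => ZC.hdl_one _))
    (fun x => by
      induction x using ZC.ind with
      | h1 x => exact congrArg (ZC.inA _ _) (DM.cyl_zero _ _ x)
      | h2 x t => exact congrArg (fun y => ZC.hdl _ _ (y, t)) (DM.cyl_zero _ _ x))
    (fun x => by
      induction x using ZC.ind with
      | h1 x => exact congrArg (ZC.inA _ _) (DM.cyl_one _ _ x)
      | h2 x t => exact congrArg (fun y => ZC.hdl _ _ (y, t)) (DM.cyl_one _ _ x))

theorem isHE_fub : IsHE (fub hc hr) := by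
  refine IsHE.of_inv_eq (g := fubInv hc hr) ?_ ?_
  · apply ZC.hom_ext
    · intro x
      induction x using DM.ind with
      | h1 x => rfl
      | h2 x => rfl
      | h3 e t => rfl
    · rintro ⟨x, s⟩
      induction x using DM.ind with
      | h1 x => rfl
      | h2 x => rfl
      | h3 e t => rfl
  · apply DM.hom_ext
    · intro x
      induction x using ZC.ind with
      | h1 x => rfl
      | h2 x t => rfl
    · intro x
      induction x using ZC.ind with
      | h1 x => rfl
      | h2 x t => rfl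
    · rintro ⟨x, s⟩
      induction x using ZC.ind with
      | h1 x => rfl
      | h2 x t => rfl

/-- Exchange is natural. -/
theorem fub_nat {βD : C(D, D)} {βV : C(V, V)} {βE : C(E, E)} (hc' : ∀ e, βD (c e) = c (βE e))
    (hr' : ∀ e, βV (r e) = r (βE e)) (hD : ∀ x, βD (αD x) = αD (βD x))
    (hV : ∀ x, βV (αV x) = αV (βV x)) (hE : ∀ x, βE (αE x) = αE (βE x)) (h) (x) :
    fub hc hr (MT.map (DM.map (c := c) (r := r) βD βV βE hc' hr') h x) =
      DM.map (MT.map βD hD) (MT.map βV hV) (MT.map βE hE)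
        (fun e => by
          induction e using ZC.ind with
          | h1 x => exact congrArg (ZC.inA _ _) (hc' x)
          | h2 x t => exact congrArg (fun y => ZC.hdl _ _ (y, t)) (hc' x))
        (fun e => by
          induction e using ZC.ind with
          | h1 x => exact congrArg (ZC.inA _ _) (hr' x)
          | h2 x t => exact congrArg (fun y => ZC.hdl _ _ (y, t)) (hr' x)) (fub hc hr x) := by
  induction x using ZC.ind with
  | h1 x =>
    induction x using DM.ind with
    | h1 x => rfl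
    | h2 x => rfl
    | h3 e t => rfl
  | h2 x s =>
    induction x using DM.ind with
    | h1 x => rfl
    | h2 x => rfl
    | h3 e t => rfl

theorem fub_inD (x : MT αD) : fub hc hr (MT.map (DM.inD c r) (fun _ => rfl) x) = DM.inD _ _ x := by
  induction x using ZC.ind with
  | h1 x => rfl
  | h2 x t => rfl

theorem fub_inV (x : MT αV) : fub hc hr (MT.map (DM.inV c r) (fun _ => rfl) x) = DM.inV _ _ x := by
  induction x using ZC.ind with
  | h1 x => rfl
  | h2 x t => rfl

end

section

variable {D V E : Type} [TopologicalSpace D] [TopologicalSpace V] [TopologicalSpace E]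
  {c : C(E, D)} {r : C(E, V)}

theorem MT.map_map {A A' A'' : Type} [TopologicalSpace A] [TopologicalSpace A']
    [TopologicalSpace A''] {α : C(A, A)} {α' : C(A', A')} {α'' : C(A'', A'')} (g : C(A, A'))
    (g' : C(A', A'')) (h : ∀ x, g (α x) = α' (g x)) (h' : ∀ x, g' (α' x) = α'' (g' x)) (x) :
    MT.map g' h' (MT.map g h x) = MT.map (g'.comp g) (fun x => by simp [h, h']) x := by
  rw [← MT.map_comp g g' h h']
  rfl

namespace H3

variable (HD : H3 D) (HV : H3 V) (HE : H3 E) (hc : Hom HE HD c) (hr : Hom HE HV r)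

/-- The double mapping cylinder with its self-maps. -/
def dm : H3 (DM c r) where
  z := DM.map HD.z HV.z HE.z (fun e => (hc.z e).symm) (fun e => (hr.z e).symm)
  u := DM.map HD.u HV.u HE.u (fun e => (hc.u e).symm) (fun e => (hr.u e).symm)
  y := DM.map HD.y HV.y HE.y (fun e => (hc.y e).symm) (fun e => (hr.y e).symm)
  zu x := by
    induction x using DM.ind with
    | h1 x => exact congrArg (DM.inD _ _) (HD.zu x)
    | h2 x => exact congrArg (DM.inV _ _) (HV.zu x)
    | h3 e t => exact congrArg (fun y => DM.cyl _ _ (y, t)) (HE.zu e)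
  zy x := by
    induction x using DM.ind with
    | h1 x => exact congrArg (DM.inD _ _) (HD.zy x)
    | h2 x => exact congrArg (DM.inV _ _) (HV.zy x)
    | h3 e t => exact congrArg (fun y => DM.cyl _ _ (y, t)) (HE.zy e)
  uy x := by
    induction x using DM.ind with
    | h1 x => exact congrArg (DM.inD _ _) (HD.uy x)
    | h2 x => exact congrArg (DM.inV _ _) (HV.uy x)
    | h3 e t => exact congrArg (fun y => DM.cyl _ _ (y, t)) (HE.uy e)

theorem dm_inD : Hom HD (dm HD HV HE hc hr) (DM.inD c r) := ⟨fun _ => rfl, fun _ => rfl, fun _ => rfl⟩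
theorem dm_inV : Hom HV (dm HD HV HE hc hr) (DM.inV c r) := ⟨fun _ => rfl, fun _ => rfl, fun _ => rfl⟩

/-- First exchange. -/
def fub1 : C((dm HD HV HE hc hr).T1, DM (map1 (H := HE) (H' := HD) c hc.z) (map1 (H := HE) (H' := HV) r hr.z)) :=
  fub (fun e => (hc.z e).symm) (fun e => (hr.z e).symm)

theorem fub1_u1 (x) : fub1 HD HV HE hc hr ((dm HD HV HE hc hr).u1 x) =
    DM.map HD.u1 HV.u1 HE.u1 (fun e => (map1_u1 hc.z hc.u e).symm)
      (fun e => (map1_u1 hr.z hr.u e).symm) (fub1 HD HV HE hc hr x) :=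
  fub_nat (fun e => (hc.z e).symm) (fun e => (hr.z e).symm) (fun e => (hc.u e).symm)
    (fun e => (hr.u e).symm) (fun x => (HD.zu x).symm) (fun x => (HV.zu x).symm) (fun x => (HE.zu x).symm) _ _

theorem fub1_y1 (x) : fub1 HD HV HE hc hr ((dm HD HV HE hc hr).y1 x) =
    DM.map HD.y1 HV.y1 HE.y1 (fun e => (map1_y1 hc.z hc.y e).symm)
      (fun e => (map1_y1 hr.z hr.y e).symm) (fub1 HD HV HE hc hr x) :=
  fub_nat (fun e => (hc.z e).symm) (fun e => (hr.z e).symm) (fun e => (hc.y e).symm)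
    (fun e => (hr.y e).symm) (fun x => (HD.zy x).symm) (fun x => (HV.zy x).symm) (fun x => (HE.zy x).symm) _ _

/-- Second exchange. -/
def fub2 : C((dm HD HV HE hc hr).T2, DM (map2 (H := HE) (H' := HD) c hc.z hc.u)
    (map2 (H := HE) (H' := HV) r hr.z hr.u)) :=
  (fub (fun e => (map1_u1 hc.z hc.u e).symm) (fun e => (map1_u1 hr.z hr.u e).symm)).comp
    (MT.map (fub1 HD HV HE hc hr) (fub1_u1 HD HV HE hc hr))

theorem fub2_y2 (x) : fub2 HD HV HE hc hr ((dm HD HV HE hc hr).y2 x) =
    DM.map HD.y2 HV.y2 HE.y2 (fun e => (map2_y2 hc e).symm)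
      (fun e => (map2_y2 hr e).symm) (fub2 HD HV HE hc hr x) := by
  change fub _ _ (MT.map _ _ (MT.map _ _ x)) = DM.map _ _ _ _ _ (fub _ _ (MT.map _ _ x))
  rw [MT.map_map]
  have := fub_nat (fun e => (map1_u1 hc.z hc.u e).symm) (fun e => (map1_u1 hr.z hr.u e).symm)
    (fun e => (map1_y1 hc.z hc.y e).symm) (fun e => (map1_y1 hr.z hr.y e).symm)
    HD.y1_u1 HV.y1_u1 HE.y1_u1 (fun x => by
      induction x using DM.ind with
      | h1 x => exact congrArg (DM.inD _ _) (HD.y1_u1 x)
      | h2 x => exact congrArg (DM.inV _ _) (HV.y1_u1 x)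
      | h3 e t => exact congrArg (fun y => DM.cyl _ _ (y, t)) (HE.y1_u1 e))
      (MT.map (fub1 HD HV HE hc hr) (fub1_u1 HD HV HE hc hr) x)
  refine Eq.trans ?_ this
  rw [MT.map_map]
  congr 2
  exact MT.map_congr (fub1_y1 HD HV HE hc hr)

/-- Third exchange. -/
def fub3 : C((dm HD HV HE hc hr).TT, DM (map3 c hc) (map3 r hr)) :=
  (fub (fun e => (map2_y2 hc e).symm) (fun e => (map2_y2 hr e).symm)).comp
    (MT.map (fub2 HD HV HE hc hr) (fub2_y2 HD HV HE hc hr))

theorem isHE_fub3 [CompactSpace D] [T2Space D] [CompactSpace V] [T2Space V] [CompactSpace E]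
    [T2Space E] : IsHE (fub3 HD HV HE hc hr) :=
  (isHE_fub _ _).comp (MT.isHE_map _ ((isHE_fub _ _).comp (MT.isHE_map _ (isHE_fub _ _))))

theorem fub3_inD (x) : fub3 HD HV HE hc hr (map3 (DM.inD c r) (dm_inD HD HV HE hc hr) x) =
    DM.inD _ _ x := by
  have h1 : ∀ x, fub1 HD HV HE hc hr (map1 (DM.inD c r) (dm_inD HD HV HE hc hr).z x) =
    DM.inD _ _ x := fub_inD _ _
  have h2 : ∀ x, fub2 HD HV HE hc hr (map2 (DM.inD c r) (dm_inD HD HV HE hc hr).z
      (dm_inD HD HV HE hc hr).u x) = DM.inD _ _ x := by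
    intro x
    have e : MT.map (fub1 HD HV HE hc hr) (fub1_u1 HD HV HE hc hr) (map2 (DM.inD c r)
        (dm_inD HD HV HE hc hr).z (dm_inD HD HV HE hc hr).u x) =
        MT.map (DM.inD _ _) (fun _ => rfl) x :=
      (MT.map_map _ _ _ _ x).trans (congrArg (fun f : C(_, _) => f x) (MT.map_congr h1))
    exact (congrArg (fub _ _) e).trans (fub_inD _ _ x)
  have e : MT.map (fub2 HD HV HE hc hr) (fub2_y2 HD HV HE hc hr) (map3 (DM.inD c r)
      (dm_inD HD HV HE hc hr) x) = MT.map (DM.inD _ _) (fun _ => rfl) x :=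
    (MT.map_map _ _ _ _ x).trans (congrArg (fun f : C(_, _) => f x) (MT.map_congr h2))
  exact (congrArg (fub _ _) e).trans (fub_inD _ _ x)

theorem fub3_inV (x) : fub3 HD HV HE hc hr (map3 (DM.inV c r) (dm_inV HD HV HE hc hr) x) =
    DM.inV _ _ x := by
  have h1 : ∀ x, fub1 HD HV HE hc hr (map1 (DM.inV c r) (dm_inV HD HV HE hc hr).z x) =
    DM.inV _ _ x := fub_inV _ _
  have h2 : ∀ x, fub2 HD HV HE hc hr (map2 (DM.inV c r) (dm_inV HD HV HE hc hr).z
      (dm_inV HD HV HE hc hr).u x) = DM.inV _ _ x := by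
    intro x
    have e : MT.map (fub1 HD HV HE hc hr) (fub1_u1 HD HV HE hc hr) (map2 (DM.inV c r)
        (dm_inV HD HV HE hc hr).z (dm_inV HD HV HE hc hr).u x) =
        MT.map (DM.inV _ _) (fun _ => rfl) x :=
      (MT.map_map _ _ _ _ x).trans (congrArg (fun f : C(_, _) => f x) (MT.map_congr h1))
    exact (congrArg (fub _ _) e).trans (fub_inV _ _ x)
  have e : MT.map (fub2 HD HV HE hc hr) (fub2_y2 HD HV HE hc hr) (map3 (DM.inV c r)
      (dm_inV HD HV HE hc hr) x) = MT.map (DM.inV _ _) (fun _ => rfl) x :=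
    (MT.map_map _ _ _ _ x).trans (congrArg (fun f : C(_, _) => f x) (MT.map_congr h2))
  exact (congrArg (fub _ _) e).trans (fub_inV _ _ x)

end H3

end

end Pool.H74
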