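import Pool.Agent.H74.ZC.Fam

/-!
Homotopy equivalences and homotopy invariance of the homotopy coequalizer.
-/

open Topology unitInterval Set

namespace Pool.H74

section IsHE

variable {X Y Z : Type} [TopologicalSpace X] [TopologicalSpace Y] [TopologicalSpace Z]

/-- A map is a homotopy equivalence. -/
def IsHE (f : C(X, Y)) : Prop :=
  ∃ g : C(Y, X), (g.comp f).Homotopic (.id X) ∧ (f.comp g).Homotopic (.id Y)

theorem hcomp {f f' : C(X, Y)} {g g' : C(Y, Z)} (h : f.Homotopic f') (h' : g.Homotopic g') :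
    (g.comp f).Homotopic (g'.comp f') := h'.comp h

theorem hleft {f f' : C(X, Y)} (g : C(Y, Z)) (h : f.Homotopic f') :
    (g.comp f).Homotopic (g.comp f') := hcomp h (.refl g)

theorem hright {g g' : C(Y, Z)} (f : C(X, Y)) (h : g.Homotopic g') :
    (g.comp f).Homotopic (g'.comp f) := hcomp (.refl f) h

namespace IsHE

theorem id : IsHE (.id X : C(X, X)) := ⟨.id X, .refl _, .refl _⟩

theorem of_inverses {f : C(X, Y)} {g g' : C(Y, X)} (h1 : (g.comp f).Homotopic (.id X))
    (h2 : (f.comp g').Homotopic (.id Y)) : IsHE f := by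
  refine ⟨g, h1, ?_⟩
  have e1 : g.Homotopic (g.comp (f.comp g')) := by simpa using (hleft g h2).symm
  have e2 : (g.comp (f.comp g')).Homotopic g' := by
    simpa [ContinuousMap.comp_assoc] using hright g' h1
  exact (hleft f (e1.trans e2)).trans h2

theorem congr {f f' : C(X, Y)} (h : f.Homotopic f') (hf : IsHE f) : IsHE f' := by
  obtain ⟨g, h1, h2⟩ := hf
  exact ⟨g, (hleft g h.symm).trans h1, (hright g h.symm).trans h2⟩

theorem comp {f : C(X, Y)} {g : C(Y, Z)} (hg : IsHE g) (hf : IsHE f) : IsHE (g.comp f) := by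
  obtain ⟨f', h1, h2⟩ := hf
  obtain ⟨g', h3, h4⟩ := hg
  refine ⟨f'.comp g', ?_, ?_⟩
  · have : (f'.comp (g'.comp (g.comp f))).Homotopic (f'.comp f) := by
      have := hleft f' (hright f h3)
      simpa [ContinuousMap.comp_assoc] using this
    exact (by simpa [ContinuousMap.comp_assoc] using this.trans h1)
  · have : (g.comp (f.comp (f'.comp g'))).Homotopic (g.comp g') := by
      have := hleft g (hright g' h2)
      simpa [ContinuousMap.comp_assoc] using this
    exact (by simpa [ContinuousMap.comp_assoc] using this.trans h4)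

/-- `g ∘ f` and `f` equivalences, then `g` is. -/
theorem of_comp_right {f : C(X, Y)} {g : C(Y, Z)} (hf : IsHE f) (h : IsHE (g.comp f)) :
    IsHE g := by
  obtain ⟨f', h1, h2⟩ := hf
  have : IsHE ((g.comp f).comp f') := comp h ⟨f, h2, h1⟩
  refine congr ?_ this
  simpa [ContinuousMap.comp_assoc] using hleft g h2

/-- `g ∘ f` and `g` equivalences, then `f` is. -/
theorem of_comp_left {f : C(X, Y)} {g : C(Y, Z)} (hg : IsHE g) (h : IsHE (g.comp f)) :
    IsHE f := by
  obtain ⟨g', h1, h2⟩ := hg
  have : IsHE (g'.comp (g.comp f)) := comp ⟨g, h2, h1⟩ h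
  refine congr ?_ this
  simpa [ContinuousMap.comp_assoc] using hright f h1

theorem of_homeo (e : X ≃ₜ Y) : IsHE (e : C(X, Y)) :=
  ⟨(e.symm : C(Y, X)), by
    have : (e.symm : C(Y, X)).comp (e : C(X, Y)) = .id X := by ext x; simp
    rw [this], by
    have : (e : C(X, Y)).comp (e.symm : C(Y, X)) = .id Y := by ext x; simp
    rw [this]⟩

/-- A left inverse of an equivalence is an equivalence. -/
theorem of_left_inverse {f : C(X, Y)} {g : C(Y, X)} (hf : IsHE f)
    (h : (g.comp f).Homotopic (.id X)) : IsHE g := of_comp_right hf (congr h.symm id)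

theorem of_right_inverse {f : C(X, Y)} {g : C(Y, X)} (hf : IsHE f)
    (h : (f.comp g).Homotopic (.id Y)) : IsHE g := of_comp_left hf (congr h.symm id)

theorem two_of_six {V : Type} [TopologicalSpace V] {f : C(X, Y)} {g : C(Y, Z)} {h : C(Z, V)}
    (h1 : IsHE (g.comp f)) (h2 : IsHE (h.comp g)) : IsHE g := by
  obtain ⟨p, h3, h4⟩ := h1
  obtain ⟨q, h5, h6⟩ := h2
  refine of_inverses (g := q.comp h) (g' := f.comp p) ?_ ?_
  · simpa [ContinuousMap.comp_assoc] using h5
  · simpa [ContinuousMap.comp_assoc] using h4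

end IsHE

end IsHE

namespace ZC

open Fam

variable {A W A' W' Z : Type} [TopologicalSpace A] [TopologicalSpace W] [TopologicalSpace A']
  [TopologicalSpace W'] [TopologicalSpace Z]

/-- Changing the attaching maps by homotopies `Ka : a ≃ a'`, `Kb : b ≃ b'`. -/
noncomputable def iota {a b a' b' : C(W, A)} (Ka Kb : C(W × I, A)) (ha0 : ∀ w, Ka (w, 0) = a w)
    (ha1 : ∀ w, Ka (w, 1) = a' w) (hb0 : ∀ w, Kb (w, 0) = b w) (hb1 : ∀ w, Kb (w, 1) = b' w) :
    C(ZC a b, ZC a' b') :=
  desc (inA a' b') (cat (cat ((inA a' b').comp Ka) (hdl a' b') (by intro w; simp [ha1]))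
      (rev ((inA a' b').comp Kb)) (by intro w; simp [hb1]))
    (by intro w; simp [ha0]) (by intro w; simp [hb0])

section

variable {a b a' b' : C(W, A)} (Ka Kb : C(W × I, A)) (ha0 : ∀ w, Ka (w, 0) = a w)
    (ha1 : ∀ w, Ka (w, 1) = a' w) (hb0 : ∀ w, Kb (w, 0) = b w) (hb1 : ∀ w, Kb (w, 1) = b' w)

@[simp] theorem iota_inA (x : A) : iota Ka Kb ha0 ha1 hb0 hb1 (inA a b x) = inA a' b' x := rfl

theorem iota_comp_inA : (iota Ka Kb ha0 ha1 hb0 hb1).comp (inA a b) = inA a' b' := rfl

theorem cl_iota : cl ((iota Ka Kb ha0 ha1 hb0 hb1).comp (hdl a b)) ((inA a' b').comp a)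
    ((inA a' b').comp b) (by intro w; simp) (by intro w; simp) =
    (cl ((inA a' b').comp Ka) ((inA a' b').comp a) ((inA a' b').comp a')
      (by intro w; simp [ha0]) (by intro w; simp [ha1])).trans
    ((cl (hdl a' b') ((inA a' b').comp a') ((inA a' b').comp b')
      (by intro w; simp) (by intro w; simp)).trans
    (cl ((inA a' b').comp Kb) ((inA a' b').comp b) ((inA a' b').comp b')
      (by intro w; simp [hb0]) (by intro w; simp [hb1])).symm) := by
  have c1 : ∀ w, ((inA a' b').comp Ka) (w, 1) = (hdl a' b') (w, 0) := by intro w; simp [ha1]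
  have c2 : ∀ w, cat ((inA a' b').comp Ka) (hdl a' b') c1 (w, 1) =
      rev ((inA a' b').comp Kb) (w, 0) := by intro w; rw [cat_one]; simp [hb1]
  have c3 : ∀ w, cat ((inA a' b').comp Ka) (hdl a' b') c1 (w, 0) = (inA a' b').comp a w := by
    intro w; rw [cat_zero]; simp [ha0]
  have c4 : ∀ w, cat ((inA a' b').comp Ka) (hdl a' b') c1 (w, 1) = (inA a' b').comp b' w := by
    intro w; rw [cat_one]; simp
  have e : (iota Ka Kb ha0 ha1 hb0 hb1).comp (hdl a b) =
      cat (cat ((inA a' b').comp Ka) (hdl a' b') c1) (rev ((inA a' b').comp Kb)) c2 := rfl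
  simp only [e]
  rw [cl_cat ((inA a' b').comp a) ((inA a' b').comp b') ((inA a' b').comp b) c3 c4
    (by intro w; simp [hb0]), cl_cat ((inA a' b').comp a) ((inA a' b').comp a')
    ((inA a' b').comp b') (by intro w; simp [ha0]) (by intro w; simp [ha1]) (by intro w; simp),
    cl_rev, Path.Homotopic.Quotient.trans_assoc]

theorem iota_inverse [LocallyCompactSpace W] :
    ((iota (rev Ka) (rev Kb) (by intro w; simp [ha1]) (by intro w; simp [ha0])
      (by intro w; simp [hb1]) (by intro w; simp [hb0])).comp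
      (iota (a' := a') (b' := b') Ka Kb ha0 ha1 hb0 hb1)).Homotopic (.id (ZC a b)) := by
  apply homotopic_of_cl ((inA a b).comp .fst) (fun _ => rfl) (fun _ => rfl)
  have e1 : cl (pre ((inA a b).comp .fst) a) ((inA a b).comp a) ((inA a b).comp a)
    (fun _ => rfl) (fun _ => rfl) = .refl _ := cl_const ((inA a b).comp a)
  have e2 : cl (pre ((inA a b).comp .fst) b) ((inA a b).comp b) ((inA a b).comp b)
    (fun _ => rfl) (fun _ => rfl) = .refl _ := cl_const ((inA a b).comp b)
  -- the inverse map
  have f1 : ∀ w, rev Ka (w, 0) = a' w := by intro w; simp [ha1]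
  have f2 : ∀ w, rev Ka (w, 1) = a w := by intro w; simp [ha0]
  have f3 : ∀ w, rev Kb (w, 0) = b' w := by intro w; simp [hb1]
  have f4 : ∀ w, rev Kb (w, 1) = b w := by intro w; simp [hb0]
  set j : C(ZC a' b', ZC a b) := iota (rev Ka) (rev Kb) f1 f2 f3 f4 with hj
  set i : C(ZC a b, ZC a' b') := iota Ka Kb ha0 ha1 hb0 hb1 with hi
  change (cl ((j.comp i).comp (hdl a b)) ((inA a b).comp a) ((inA a b).comp b) _ _).trans
    (cl (pre ((inA a b).comp .fst) b) ((inA a b).comp b) ((inA a b).comp b) _ _) =
    (cl (pre ((inA a b).comp .fst) a) ((inA a b).comp a) ((inA a b).comp a) _ _).trans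
    (cl (hdl a b) ((inA a b).comp a) ((inA a b).comp b) _ _)
  rw [e1, e2, Path.Homotopic.Quotient.trans_refl, Path.Homotopic.Quotient.refl_trans]
  have h1 := congrArg (fun p => Path.Homotopic.Quotient.map p
    (⟨fun u => j.comp u, ContinuousMap.continuous_postcomp j⟩ :
      C(C(W, ZC a' b'), C(W, ZC a b)))) (cl_iota Ka Kb ha0 ha1 hb0 hb1)
  have mt : ∀ {x y z : C(W, ZC a' b')} (p : Path.Homotopic.Quotient x y)
      (q : Path.Homotopic.Quotient y z), (p.trans q).map
      (⟨fun u => j.comp u, ContinuousMap.continuous_postcomp j⟩ :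
      C(C(W, ZC a' b'), C(W, ZC a b))) = (p.map _).trans (q.map _) := by
    intro x y z p q
    induction p using Path.Homotopic.Quotient.ind
    induction q using Path.Homotopic.Quotient.ind
    rw [← Path.Homotopic.Quotient.mk_trans, ← Path.Homotopic.Quotient.mk_map, Path.map_trans]
    rfl
  have ms : ∀ {x y : C(W, ZC a' b')} (p : Path.Homotopic.Quotient x y), (p.symm).map
      (⟨fun u => j.comp u, ContinuousMap.continuous_postcomp j⟩ :
      C(C(W, ZC a' b'), C(W, ZC a b))) = (p.map _).symm := by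
    intro x y p
    induction p using Path.Homotopic.Quotient.ind
    rfl
  simp only [mt, ms, ← cl_comp] at h1
  have h2 := cl_iota (rev Ka) (rev Kb) f1 f2 f3 f4
  have h3 : cl (j.comp ((inA a' b').comp Ka)) (j.comp ((inA a' b').comp a))
      (j.comp ((inA a' b').comp a')) (by intro w; simp [ha0]) (by intro w; simp [ha1]) =
      cl ((inA a b).comp Ka) ((inA a b).comp a) ((inA a b).comp a') (by intro w; simp [ha0])
        (by intro w; simp [ha1]) := rfl
  have h4 : cl (j.comp ((inA a' b').comp Kb)) (j.comp ((inA a' b').comp b))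
      (j.comp ((inA a' b').comp b')) (by intro w; simp [hb0]) (by intro w; simp [hb1]) =
      cl ((inA a b).comp Kb) ((inA a b).comp b) ((inA a b).comp b') (by intro w; simp [hb0])
        (by intro w; simp [hb1]) := rfl
  rw [h3, h4] at h1
  change cl ((j.comp i).comp (hdl a b)) ((inA a b).comp a) ((inA a b).comp b) _ _ =
    (cl ((inA a b).comp Ka) ((inA a b).comp a) ((inA a b).comp a') _ _).trans
    ((cl (j.comp (hdl a' b')) ((inA a b).comp a') ((inA a b).comp b') _ _).trans
    (cl ((inA a b).comp Kb) ((inA a b).comp b) ((inA a b).comp b') _ _).symm) at h1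
  rw [h1, h2]
  have k0 : ∀ w, ((inA a b).comp Ka) (w, 0) = (inA a b).comp a w := by intro w; simp [ha0]
  have k1 : ∀ w, ((inA a b).comp Ka) (w, 1) = (inA a b).comp a' w := by intro w; simp [ha1]
  have k2 : ∀ w, ((inA a b).comp Kb) (w, 0) = (inA a b).comp b w := by intro w; simp [hb0]
  have k3 : ∀ w, ((inA a b).comp Kb) (w, 1) = (inA a b).comp b' w := by intro w; simp [hb1]
  have h5 := cl_rev _ _ k0 k1
  have h6 := cl_rev _ _ k2 k3
  change (cl ((inA a b).comp Ka) _ _ k0 k1).trans
    (((cl (rev ((inA a b).comp Ka)) _ _ _ _).trans ((cl (hdl a b) _ _ _ _).trans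
      (cl (rev ((inA a b).comp Kb)) _ _ _ _).symm)).trans
      (cl ((inA a b).comp Kb) _ _ k2 k3).symm) = _
  rw [h5, h6]
  simp only [Path.Homotopic.Quotient.trans_assoc, PHQ.trans_symm_cancel_left]
  rw [Path.Homotopic.Quotient.symm_trans, Path.Homotopic.Quotient.trans_refl]

theorem isHE_iota [LocallyCompactSpace W] :
    IsHE (iota (a' := a') (b' := b') Ka Kb ha0 ha1 hb0 hb1) := by
  refine IsHE.of_inverses (iota_inverse Ka Kb ha0 ha1 hb0 hb1)
    (g' := iota (rev Ka) (rev Kb) (by intro w; simp [ha1]) (by intro w; simp [ha0])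
      (by intro w; simp [hb1]) (by intro w; simp [hb0])) ?_
  have := iota_inverse (a := a') (b := b') (a' := a) (b' := b) (rev Ka) (rev Kb)
    (by intro w; simp [ha1]) (by intro w; simp [ha0])
    (by intro w; simp [hb1]) (by intro w; simp [hb0])
  simpa only [rev_rev] using this

end

section mapA

variable {a b : C(W, A)}

/-- Change of the vertex space. -/
def mapA (a b : C(W, A)) (g : C(A, A')) : C(ZC a b, ZC (g.comp a) (g.comp b)) :=
  map g (.id W) (fun _ => rfl) (fun _ => rfl)

/-- Change of the handle space. -/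
def mapW (a b : C(W, A)) (k : C(W', W)) : C(ZC (a.comp k) (b.comp k), ZC a b) :=
  map (.id A) k (fun _ => rfl) (fun _ => rfl)

theorem mapA_left [LocallyCompactSpace W] (g : C(A, A')) (g' : C(A', A)) (H : C(A × I, A))
    (H0 : ∀ x, H (x, 0) = g' (g x)) (H1 : ∀ x, H (x, 1) = x) :
    ((iota (a := g'.comp (g.comp a)) (b := g'.comp (g.comp b)) (a' := a) (b' := b)
      (pre H a) (pre H b) (by intro w; simp [H0]) (by intro w; simp [H1]) (by intro w; simp [H0])
      (by intro w; simp [H1])).comp ((mapA (g.comp a) (g.comp b) g').comp (mapA a b g))).Homotopic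
      (.id (ZC a b)) := by
  have h1 := cl_iota (a := g'.comp (g.comp a)) (b := g'.comp (g.comp b)) (a' := a) (b' := b)
      (pre H a) (pre H b) (by intro w; simp [H0]) (by intro w; simp [H1]) (by intro w; simp [H0])
      (by intro w; simp [H1])
  set i : C(ZC (g'.comp (g.comp a)) (g'.comp (g.comp b)), ZC a b) := iota (a' := a) (b' := b)
      (pre H a) (pre H b) (by intro w; simp [H0]) (by intro w; simp [H1]) (by intro w; simp [H0])
      (by intro w; simp [H1]) with hi
  have hi' : ∀ x, i (inA _ _ x) = inA a b x := fun x => rfl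
  refine uhl ((inA a b).comp H) (fun x => by simp [H0]; rfl) (fun x => by simp [H1])
    (i.comp (hdl _ _))
    (hdl a b) ((inA a b).comp (pre H a)) ((inA a b).comp (pre H b))
    ((inA a b).comp (g'.comp (g.comp a))) ((inA a b).comp (g'.comp (g.comp b)))
    ((inA a b).comp a) ((inA a b).comp b) (fun w t => rfl) (fun w t => rfl) (fun w t => rfl)
    (fun w t => rfl) (by intro w; simp [hi']) (by intro w; simp [hi']) (by intro w; simp [H0])
    (by intro w; simp [H1]) (by intro w; simp [H0]) (by intro w; simp [H1]) (by intro w; simp)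
    (by intro w; simp) ?_
  rw [h1]
  simp only [Path.Homotopic.Quotient.trans_assoc]
  rw [Path.Homotopic.Quotient.symm_trans, Path.Homotopic.Quotient.trans_refl]

theorem isHE_mapA [LocallyCompactSpace W] {g : C(A, A')} (hg : IsHE g) : IsHE (mapA a b g) := by
  obtain ⟨g', ⟨H⟩, ⟨H'⟩⟩ := hg
  have e1 := mapA_left (a := a) (b := b) g g' (H.toContinuousMap.comp .prodSwap) (fun x => H.apply_zero x)
    (fun x => H.apply_one x)
  have e2 := mapA_left (a := g.comp a) (b := g.comp b) g' g (H'.toContinuousMap.comp .prodSwap)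
    (fun x => H'.apply_zero x) (fun x => H'.apply_one x)
  have i1 := isHE_iota (a := g'.comp (g.comp a)) (b := g'.comp (g.comp b)) (a' := a) (b' := b)
    (pre (H.toContinuousMap.comp .prodSwap) a) (pre (H.toContinuousMap.comp .prodSwap) b)
    (by intro w; exact H.apply_zero _) (by intro w; exact H.apply_one _)
    (by intro w; exact H.apply_zero _) (by intro w; exact H.apply_one _)
  have i2 := isHE_iota (a := g.comp (g'.comp (g.comp a))) (b := g.comp (g'.comp (g.comp b)))
    (a' := g.comp a) (b' := g.comp b)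
    (pre (H'.toContinuousMap.comp .prodSwap) (g.comp a))
    (pre (H'.toContinuousMap.comp .prodSwap) (g.comp b))
    (by intro w; exact H'.apply_zero _) (by intro w; exact H'.apply_one _)
    (by intro w; exact H'.apply_zero _) (by intro w; exact H'.apply_one _)
  have j1 := IsHE.of_right_inverse i1 e1
  have j2 := IsHE.of_right_inverse i2 e2
  exact IsHE.of_comp_left (IsHE.two_of_six j1 j2) j1

theorem mapW_comp [LocallyCompactSpace W] (k : C(W', W)) (k' : C(W, W')) (H : C(W × I, W))
    (H0 : ∀ x, H (x, 0) = k (k' x)) (H1 : ∀ x, H (x, 1) = x) :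
    ((mapW a b k).comp (mapW (a.comp k) (b.comp k) k')).Homotopic
      (iota (a' := a) (b' := b) (a.comp H) (b.comp H) (by intro w; simp [H0])
        (by intro w; simp [H1]) (by intro w; simp [H0]) (by intro w; simp [H1])) := by
  have h1 := cl_iota (a := (a.comp k).comp k') (b := (b.comp k).comp k') (a' := a) (b' := b)
    (a.comp H) (b.comp H) (by intro w; simp [H0])
        (by intro w; simp [H1]) (by intro w; simp [H0]) (by intro w; simp [H1])
  have h2 := interchange (hdl a b) ((inA a b).comp a) ((inA a b).comp b) (by intro w; simp)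
    (by intro w; simp) H (k.comp k') (.id W) (by intro w; simp [H0]) (by intro w; simp [H1])
  set i : C(ZC ((a.comp k).comp k') ((b.comp k).comp k'), ZC a b) := iota (a' := a) (b' := b)
    (a.comp H) (b.comp H) (by intro w; simp [H0])
        (by intro w; simp [H1]) (by intro w; simp [H0]) (by intro w; simp [H1]) with hi
  have hi' : ∀ x, i (inA _ _ x) = inA a b x := fun x => rfl
  refine uhl (const (inA a b)) (fun x => rfl) (fun x => rfl) (pre (hdl a b) (k.comp k'))
    (i.comp (hdl _ _))
    (const (((inA a b).comp a).comp (k.comp k'))) (const (((inA a b).comp b).comp (k.comp k')))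
    (((inA a b).comp a).comp (k.comp k')) (((inA a b).comp b).comp (k.comp k'))
    (((inA a b).comp a).comp (k.comp k')) (((inA a b).comp b).comp (k.comp k'))
    (fun w t => rfl) (fun w t => rfl) (fun w t => rfl)
    (fun w t => rfl) (by intro w; simp) (by intro w; simp) (by intro w; rfl)
    (by intro w; rfl) (by intro w; rfl) (by intro w; rfl) (by intro w; simp; exact hi' _)
    (by intro w; simp; exact hi' _) ?_
  rw [cl_const, cl_const, Path.Homotopic.Quotient.trans_refl, Path.Homotopic.Quotient.refl_trans]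
  refine Eq.trans ?_ h1.symm
  rw [← Path.Homotopic.Quotient.trans_assoc]
  apply PHQ.trans_cancel_right (q := cl (((inA a b).comp b).comp H)
    (((inA a b).comp b).comp (k.comp k')) (((inA a b).comp b).comp (ContinuousMap.id W))
    (by intro w; simp [H0]) (by intro w; simp [H1]))
  rw [h2, Path.Homotopic.Quotient.trans_assoc]
  exact (Path.Homotopic.Quotient.trans_refl _).symm.trans
    (congrArg (fun p => Path.Homotopic.Quotient.trans _ p)
      (Path.Homotopic.Quotient.symm_trans _).symm)

theorem isHE_mapW [LocallyCompactSpace W] [LocallyCompactSpace W'] {k : C(W', W)} (hk : IsHE k) :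
    IsHE (mapW a b k) := by
  obtain ⟨k', ⟨H⟩, ⟨H'⟩⟩ := hk
  have e1 := mapW_comp (a := a) (b := b) k k' (H'.toContinuousMap.comp .prodSwap)
    (fun x => H'.apply_zero x) (fun x => H'.apply_one x)
  have e2 := mapW_comp (a := a.comp k) (b := b.comp k) k' k (H.toContinuousMap.comp .prodSwap)
    (fun x => H.apply_zero x) (fun x => H.apply_one x)
  have j1 := IsHE.congr e1.symm (isHE_iota _ _ _ _ _ _)
  have j2 := IsHE.congr e2.symm (isHE_iota _ _ _ _ _ _)
  exact IsHE.of_comp_right (IsHE.two_of_six j2 j1) j1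

/-- Homotopy invariance of the homotopy coequalizer. -/
theorem isHE_map [LocallyCompactSpace W] [LocallyCompactSpace W'] {a' b' : C(W', A')}
    {g : C(A, A')} {k : C(W, W')} (ha : ∀ w, g (a w) = a' (k w)) (hb : ∀ w, g (b w) = b' (k w))
    (hg : IsHE g) (hk : IsHE k) : IsHE (map (a' := a') (b' := b') g k ha hb) := by
  have h1 : ∀ (c d : C(W, A')) (hc : ∀ w, g (a w) = c w) (hd : ∀ w, g (b w) = d w),
      IsHE (map (a' := c) (b' := d) g (.id W) hc hd) := by
    intro c d hc hd
    obtain rfl : g.comp a = c := by ext w; exact hc w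
    obtain rfl : g.comp b = d := by ext w; exact hd w
    exact isHE_mapA hg
  have h3 := (isHE_mapW (a := a') (b := b') hk).comp (h1 (a'.comp k) (b'.comp k) ha hb)
  have e : (mapW a' b' k).comp (map (a' := a'.comp k) (b' := b'.comp k) g (.id W) ha hb) =
      map g k ha hb := hom_ext (fun _ => rfl) (fun _ => rfl)
  rwa [e] at h3

end mapA

end ZC

end Pool.H74
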