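import Pool.Agent.H74.ZC.DM

/-!
Spaces with three commuting self-maps and their iterated mapping tori; exchange of mapping tori
with double mapping cylinders.
-/

open Topology unitInterval Set

namespace Pool.H74

open Fam

section

variable {A W Z T : Type} [TopologicalSpace A] [TopologicalSpace W] [TopologicalSpace Z]
  [TopologicalSpace T]

/-- Maps out of `ZC a b × T`. -/
def ZC.descI [LocallyCompactSpace T] {a b : C(W, A)} (g : C(A × T, Z)) (q : C((W × I) × T, Z))
    (h0 : ∀ w t, q ((w, 0), t) = g (a w, t)) (h1 : ∀ w t, q ((w, 1), t) = g (b w, t)) :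
    C(ZC a b × T, Z) :=
  ContinuousMap.uncurry (ZC.desc g.curry q.curry (fun w => by ext t; exact h0 w t)
    (fun w => by ext t; exact h1 w t))

@[simp] theorem ZC.descI_inA [LocallyCompactSpace T] {a b : C(W, A)} (g : C(A × T, Z))
    (q : C((W × I) × T, Z)) (h0 : ∀ w t, q ((w, 0), t) = g (a w, t))
    (h1 : ∀ w t, q ((w, 1), t) = g (b w, t)) (x t) :
    ZC.descI g q h0 h1 (ZC.inA _ _ x, t) = g (x, t) := rfl

@[simp] theorem ZC.descI_hdl [LocallyCompactSpace T] {a b : C(W, A)} (g : C(A × T, Z))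
    (q : C((W × I) × T, Z)) (h0 : ∀ w t, q ((w, 0), t) = g (a w, t))
    (h1 : ∀ w t, q ((w, 1), t) = g (b w, t)) (p t) :
    ZC.descI g q h0 h1 (ZC.hdl _ _ p, t) = q (p, t) := rfl

end

section

variable {A A' A'' : Type} [TopologicalSpace A] [TopologicalSpace A'] [TopologicalSpace A'']

theorem MT.map_congr {α : C(A, A)} {α' : C(A', A')} {g g' : C(A, A')}
    {h : ∀ x, g (α x) = α' (g x)} {h' : ∀ x, g' (α x) = α' (g' x)} (e : ∀ x, g x = g' x) :
    MT.map g h = MT.map g' h' := by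
  obtain rfl : g = g' := by ext x; exact e x
  rfl

theorem MT.map_comp {α : C(A, A)} {α' : C(A', A')} {α'' : C(A'', A'')} (g : C(A, A'))
    (g' : C(A', A'')) (h : ∀ x, g (α x) = α' (g x)) (h' : ∀ x, g' (α' x) = α'' (g' x)) :
    (MT.map g' h').comp (MT.map g h) = MT.map (g'.comp g) (fun x => by simp [h, h']) :=
  ZC.hom_ext (fun _ => rfl) (fun _ => rfl)

theorem MT.map_id {α : C(A, A)} : MT.map (α := α) (.id A) (fun _ => rfl) = .id _ :=
  ZC.hom_ext (fun _ => rfl) (fun _ => rfl)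

/-- Three commuting self-maps. -/
structure H3 (A : Type) [TopologicalSpace A] where
  z : C(A, A)
  u : C(A, A)
  y : C(A, A)
  zu : ∀ x, z (u x) = u (z x)
  zy : ∀ x, z (y x) = y (z x)
  uy : ∀ x, u (y x) = y (u x)

namespace H3

variable (H : H3 A) (H' : H3 A') (H'' : H3 A'')

/-- First mapping torus. -/
abbrev T1 : Type := MT H.z
/-- The map induced by `u`. -/
def u1 : C(H.T1, H.T1) := MT.map H.u (fun x => (H.zu x).symm)
/-- The map induced by `y`. -/
def y1 : C(H.T1, H.T1) := MT.map H.y (fun x => (H.zy x).symm)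

theorem y1_u1 (x : H.T1) : H.y1 (H.u1 x) = H.u1 (H.y1 x) := by
  have : H.y1.comp H.u1 = H.u1.comp H.y1 := by
    unfold y1 u1
    rw [MT.map_comp, MT.map_comp]
    exact MT.map_congr (fun x => (H.uy x).symm)
  exact congrArg (fun f : C(H.T1, H.T1) => f x) this

/-- Second mapping torus. -/
abbrev T2 : Type := MT H.u1
/-- The map induced by `y`. -/
def y2 : C(H.T2, H.T2) := MT.map H.y1 H.y1_u1
/-- The map induced by `u`. -/
def u2 : C(H.T2, H.T2) := MT.map H.u1 (fun _ => rfl)

/-- Third mapping torus. -/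
abbrev TT : Type := MT H.y2

/-- Equivariant maps. -/
structure Hom (g : C(A, A')) : Prop where
  z : ∀ x, g (H.z x) = H'.z (g x)
  u : ∀ x, g (H.u x) = H'.u (g x)
  y : ∀ x, g (H.y x) = H'.y (g x)

variable {H H' H''}

/-- The induced map. -/
def map1 (g : C(A, A')) (h : ∀ x, g (H.z x) = H'.z (g x)) : C(H.T1, H'.T1) := MT.map g h

theorem map1_u1 {g : C(A, A')} (hz : ∀ x, g (H.z x) = H'.z (g x))
    (hu : ∀ x, g (H.u x) = H'.u (g x)) (x : H.T1) : map1 g hz (H.u1 x) = H'.u1 (map1 g hz x) := by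
  have : (map1 g hz).comp H.u1 = H'.u1.comp (map1 g hz) := by
    unfold map1 u1
    rw [MT.map_comp, MT.map_comp]
    exact MT.map_congr hu
  exact congrArg (fun f : C(H.T1, H'.T1) => f x) this

theorem map1_y1 {g : C(A, A')} (hz : ∀ x, g (H.z x) = H'.z (g x))
    (hy : ∀ x, g (H.y x) = H'.y (g x)) (x : H.T1) : map1 g hz (H.y1 x) = H'.y1 (map1 g hz x) := by
  have : (map1 g hz).comp H.y1 = H'.y1.comp (map1 g hz) := by
    unfold map1 y1
    rw [MT.map_comp, MT.map_comp]
    exact MT.map_congr hy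
  exact congrArg (fun f : C(H.T1, H'.T1) => f x) this

/-- The induced map on the second mapping tori. -/
def map2 (g : C(A, A')) (hz : ∀ x, g (H.z x) = H'.z (g x))
    (hu : ∀ x, g (H.u x) = H'.u (g x)) : C(H.T2, H'.T2) := MT.map (map1 g hz) (map1_u1 hz hu)

theorem map2_y2 {g : C(A, A')} (h : Hom H H' g) (x : H.T2) :
    map2 g h.z h.u (H.y2 x) = H'.y2 (map2 g h.z h.u x) := by
  have : (map2 g h.z h.u).comp H.y2 = H'.y2.comp (map2 g h.z h.u) := by
    unfold map2 y2
    rw [MT.map_comp, MT.map_comp]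
    exact MT.map_congr (map1_y1 h.z h.y)
  exact congrArg (fun f : C(H.T2, H'.T2) => f x) this

/-- The induced map on iterated mapping tori. -/
def map3 (g : C(A, A')) (h : Hom H H' g) : C(H.TT, H'.TT) := MT.map (map2 g h.z h.u) (map2_y2 h)

theorem isHE_map2 [CompactSpace A] [T2Space A] [CompactSpace A'] [T2Space A'] {g : C(A, A')}
    (hz : ∀ x, g (H.z x) = H'.z (g x)) (hu : ∀ x, g (H.u x) = H'.u (g x)) (hg : IsHE g) :
    IsHE (map2 g hz hu) := MT.isHE_map _ (MT.isHE_map _ hg)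

theorem isHE_map3 [CompactSpace A] [T2Space A] [CompactSpace A'] [T2Space A'] {g : C(A, A')}
    (h : Hom H H' g) (hg : IsHE g) : IsHE (map3 g h) := MT.isHE_map _ (isHE_map2 _ _ hg)

end H3

end

end Pool.H74
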