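import Pool.Agent.H74.ZC.HE

/-!
Sums, mapping tori, double mapping cylinders: the unrolling lemma, mapping cylinders, leg insertion.
-/

open Topology unitInterval Set

namespace Pool.H74

section SumMaps

variable {W W' Z Z' : Type} [TopologicalSpace W] [TopologicalSpace W'] [TopologicalSpace Z]
  [TopologicalSpace Z']

/-- Left inclusion. -/
def inlC : C(W, W ⊕ W') := ⟨Sum.inl, continuous_inl⟩
/-- Right inclusion. -/
def inrC : C(W', W ⊕ W') := ⟨Sum.inr, continuous_inr⟩
/-- Map out of a sum. -/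
def sumC (f : C(W, Z)) (g : C(W', Z)) : C(W ⊕ W', Z) :=
  ⟨Sum.elim f g, continuous_sum_dom.2 ⟨f.continuous, g.continuous⟩⟩

@[simp] theorem inlC_apply (x : W) : (inlC : C(W, W ⊕ W')) x = .inl x := rfl
@[simp] theorem inrC_apply (x : W') : (inrC : C(W', W ⊕ W')) x = .inr x := rfl
@[simp] theorem sumC_inl (f : C(W, Z)) (g : C(W', Z)) (x : W) : sumC f g (.inl x) = f x := rfl
@[simp] theorem sumC_inr (f : C(W, Z)) (g : C(W', Z)) (x : W') : sumC f g (.inr x) = g x := rfl

/-- Map out of a sum times a space. -/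
def sumProdC {T : Type} [TopologicalSpace T] (f : C(W × T, Z)) (g : C(W' × T, Z)) :
    C((W ⊕ W') × T, Z) where
  toFun p := match p.1 with
    | .inl w => f (w, p.2)
    | .inr w => g (w, p.2)
  continuous_toFun := by
    refine (Homeomorph.sumProdDistrib (X := W) (Y := W') (Z := T)).symm.isQuotientMap.continuous_iff.2 ?_
    exact continuous_sum_dom.2 ⟨f.continuous, g.continuous⟩

@[simp] theorem sumProdC_inl {T : Type} [TopologicalSpace T] (f : C(W × T, Z)) (g : C(W' × T, Z))
    (x : W) (t : T) : sumProdC f g (.inl x, t) = f (x, t) := rfl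
@[simp] theorem sumProdC_inr {T : Type} [TopologicalSpace T] (f : C(W × T, Z)) (g : C(W' × T, Z))
    (x : W') (t : T) : sumProdC f g (.inr x, t) = g (x, t) := rfl

instance instLocallyCompactSum [LocallyCompactSpace W] [LocallyCompactSpace W'] :
    LocallyCompactSpace (W ⊕ W') where
  local_compact_nhds := by
    rintro (x | x) n hn
    · obtain ⟨s, hs, hsn, hc⟩ := local_compact_nhds (continuous_inl.continuousAt.preimage_mem_nhds hn)
      exact ⟨Sum.inl '' s, IsOpenEmbedding.inl.image_mem_nhds.2 hs, image_subset_iff.2 hsn,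
        hc.image continuous_inl⟩
    · obtain ⟨s, hs, hsn, hc⟩ := local_compact_nhds (continuous_inr.continuousAt.preimage_mem_nhds hn)
      exact ⟨Sum.inr '' s, IsOpenEmbedding.inr.image_mem_nhds.2 hs, image_subset_iff.2 hsn,
        hc.image continuous_inr⟩

end SumMaps

namespace Fam

variable {W W' Z Z' : Type} [TopologicalSpace W] [TopologicalSpace W'] [TopologicalSpace Z]
  [TopologicalSpace Z']

/-- Precomposition as a continuous map of function spaces. -/
def preC (Z : Type) [TopologicalSpace Z] (k : C(W', W)) : C(C(W, Z), C(W', Z)) :=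
  ⟨fun u => u.comp k, ContinuousMap.continuous_precomp k⟩

/-- Postcomposition as a continuous map of function spaces. -/
def postC (W : Type) [TopologicalSpace W] (f : C(Z, Z')) : C(C(W, Z), C(W, Z')) :=
  ⟨fun u => f.comp u, ContinuousMap.continuous_postcomp f⟩

@[simp] theorem preC_apply (k : C(W', W)) (u : C(W, Z)) : preC Z k u = u.comp k := rfl
@[simp] theorem postC_apply (f : C(Z, Z')) (u : C(W, Z)) : postC W f u = f.comp u := rfl

theorem cl_postC (f : C(Z, Z')) {q : C(W × I, Z)} (x y : C(W, Z)) (hx : ∀ w, q (w, 0) = x w)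
    (hy : ∀ w, q (w, 1) = y w) :
    (cl q x y hx hy).map (postC W f) =
    cl (f.comp q) (f.comp x) (f.comp y) (fun w => congrArg f (hx w)) (fun w => congrArg f (hy w)) :=
  (cl_comp f x y hx hy).symm

theorem cl_preC {q : C(W × I, Z)} (x y : C(W, Z)) (hx : ∀ w, q (w, 0) = x w)
    (hy : ∀ w, q (w, 1) = y w) (k : C(W', W)) :
    (cl q x y hx hy).map (preC Z k) =
    cl (pre q k) (x.comp k) (y.comp k) (fun w => hx (k w)) (fun w => hy (k w)) :=
  (cl_pre x y hx hy k).symm

/-- Classes of families over a sum are determined by their restrictions. -/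
theorem cl_sum_ext [LocallyCompactSpace W] [LocallyCompactSpace W'] {x y : C(W ⊕ W', Z)}
    {p p' : Path.Homotopic.Quotient x y}
    (h1 : p.map (preC Z inlC) = p'.map (preC Z inlC))
    (h2 : p.map (preC Z inrC) = p'.map (preC Z inrC)) : p = p' := by
  induction p using Path.Homotopic.Quotient.ind with | mk γ =>
  induction p' using Path.Homotopic.Quotient.ind with | mk γ' =>
  rw [← Path.Homotopic.Quotient.mk_map, ← Path.Homotopic.Quotient.mk_map,
    Path.Homotopic.Quotient.eq] at h1 h2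
  obtain ⟨F1⟩ := h1
  obtain ⟨F2⟩ := h2
  rw [Path.Homotopic.Quotient.eq]
  refine ⟨⟨⟨⟨fun p => sumC (F1 p) (F2 p), ?_⟩, ?_, ?_⟩, ?_⟩⟩
  · apply ContinuousMap.continuous_of_continuous_uncurry
    have := (sumProdC (W := W) (W' := W') (T := I × I)
      ((F1.toContinuousMap : C(I × I, C(W, Z))).uncurry.comp .prodSwap)
      ((F2.toContinuousMap : C(I × I, C(W', Z))).uncurry.comp .prodSwap)).continuous.comp
      (continuous_swap : Continuous (Prod.swap : (I × I) × (W ⊕ W') → _))
    refine this.congr ?_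
    rintro ⟨p, w | w⟩ <;> rfl
  · intro t
    ext w
    rcases w with w | w
    · exact congrArg (fun u : C(W, Z) => u w) (F1.apply_zero t)
    · exact congrArg (fun u : C(W', Z) => u w) (F2.apply_zero t)
  · intro t
    ext w
    rcases w with w | w
    · exact congrArg (fun u : C(W, Z) => u w) (F1.apply_one t)
    · exact congrArg (fun u : C(W', Z) => u w) (F2.apply_one t)
  · rintro s t ht
    ext w
    rcases w with w | w
    · exact congrArg (fun u : C(W, Z) => u w) (F1.prop' s t ht)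
    · exact congrArg (fun u : C(W', Z) => u w) (F2.prop' s t ht)

end Fam

/-! ### Mapping tori -/

open Fam

/-- The mapping torus of a self-map. -/
abbrev MT {A : Type} [TopologicalSpace A] (α : C(A, A)) : Type := ZC (.id A) α

namespace MT

variable {A A' A'' Z : Type} [TopologicalSpace A] [TopologicalSpace A'] [TopologicalSpace A'']
  [TopologicalSpace Z] {α : C(A, A)} {α' : C(A', A')} {α'' : C(A'', A'')}

/-- Functoriality of mapping tori. -/
def map (g : C(A, A')) (h : ∀ x, g (α x) = α' (g x)) : C(MT α, MT α') :=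
  ZC.map g g (fun _ => rfl) h

@[simp] theorem map_inA (g : C(A, A')) (h : ∀ x, g (α x) = α' (g x)) (x : A) :
    map g h (ZC.inA _ _ x) = ZC.inA _ _ (g x) := rfl

@[simp] theorem map_hdl (g : C(A, A')) (h : ∀ x, g (α x) = α' (g x)) (x : A) (t : I) :
    map g h (ZC.hdl _ _ (x, t)) = ZC.hdl _ _ (g x, t) := rfl

theorem isHE_map [LocallyCompactSpace A] [LocallyCompactSpace A'] {g : C(A, A')}
    (h : ∀ x, g (α x) = α' (g x)) (hg : IsHE g) : IsHE (map g h) := ZC.isHE_map _ _ hg hg

variable (α) in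
/-- A self-map acts on its mapping torus as the identity up to homotopy. -/
theorem map_self [LocallyCompactSpace A] :
    (ContinuousMap.id (MT α)).Homotopic (map α (fun _ => rfl)) :=
  ZC.uhl (ZC.hdl _ _) (fun x => ZC.hdl_zero x) (fun x => ZC.hdl_one x) (ZC.hdl _ _)
    (pre (ZC.hdl _ _) α) (ZC.hdl _ _) (pre (ZC.hdl _ _) α) (ZC.inA _ _)
    ((ZC.inA _ _).comp α) ((ZC.inA _ _).comp α) (((ZC.inA _ _).comp α).comp α)
    (fun _ _ => rfl) (fun _ _ => rfl) (fun _ _ => rfl) (fun _ _ => rfl)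
    (fun w => ZC.hdl_zero w) (fun w => ZC.hdl_one w) (fun w => ZC.hdl_zero _)
    (fun w => ZC.hdl_one _) (fun w => ZC.hdl_zero w) (fun w => ZC.hdl_one w)
    (fun w => ZC.hdl_zero _) (fun w => ZC.hdl_one _) rfl

theorem isHE_map_self [LocallyCompactSpace A] : IsHE (map α (fun _ => rfl) : C(MT α, MT α)) :=
  IsHE.congr (map_self α) IsHE.id

/-! ### Unrolling -/

/-- The self-map of `A ⊕ A` whose mapping torus is the unrolled mapping torus of `α`. -/
def dup (α : C(A, A)) : C(A ⊕ A, A ⊕ A) := sumC inrC (inlC.comp α)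

@[simp] theorem dup_inl (α : C(A, A)) (x : A) : dup α (.inl x) = .inr x := rfl
@[simp] theorem dup_inr (α : C(A, A)) (x : A) : dup α (.inr x) = .inl (α x) := rfl

/-- The unrolling map. -/
noncomputable def unroll (α : C(A, A)) : C(MT α, MT (dup α)) :=
  ZC.desc ((ZC.inA _ _).comp inlC)
    (cat (pre (ZC.hdl (.id _) (dup α)) inlC) (pre (ZC.hdl (.id _) (dup α)) inrC)
      (by intro w; simp)) (by intro w; simp) (by intro w; simp)

/-- The inverse of the unrolling map. -/
noncomputable def reroll (α : C(A, A)) : C(MT (dup α), MT α) :=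
  ZC.desc ((ZC.inA _ _).comp (sumC (.id _) (.id _)))
    (sumProdC (const (ZC.inA _ _)) (ZC.hdl _ _))
    (by rintro (w | w) <;> simp) (by rintro (w | w) <;> simp)

theorem reroll_unroll [LocallyCompactSpace A] (α : C(A, A)) :
    ((reroll α).comp (unroll α)).Homotopic (.id _) := by
  have c1 : ∀ w, (const (ZC.inA (.id A) α)) (w, 1) = (ZC.hdl (.id A) α) (w, 0) := by
    intro w; simp
  have c2 : ∀ w, (ZC.hdl (.id A) α) (w, 0) = ZC.inA (.id A) α w := fun w => ZC.hdl_zero w
  have c3 : ∀ w, (ZC.hdl (.id A) α) (w, 1) = (ZC.inA (.id A) α).comp α w := fun w => ZC.hdl_one w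
  refine ZC.uhl (const (ZC.inA _ _)) (fun _ => rfl) (fun _ => rfl)
    (cat (const (ZC.inA _ _)) (ZC.hdl _ _) c1) (ZC.hdl _ _)
    (const (ZC.inA _ _)) (const ((ZC.inA _ _).comp α)) (ZC.inA _ _) ((ZC.inA _ _).comp α)
    (ZC.inA _ _) ((ZC.inA _ _).comp α) ?_ (fun _ _ => rfl) (fun _ _ => rfl) (fun _ _ => rfl)
    (by intro w; simp) (by intro w; simp) (fun _ => rfl) (fun _ => rfl) (fun _ => rfl)
    (fun _ => rfl) c2 c3 ?_
  · intro w t
    have := comp_cat (reroll α) (pre (ZC.hdl (.id _) (dup α)) inlC)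
      (pre (ZC.hdl (.id _) (dup α)) inrC) (by intro w; simp)
    exact congrArg (fun u : C(A × I, MT α) => u (w, t)) this
  · rw [cl_cat (ZC.inA _ _) (ZC.inA _ _) ((ZC.inA _ _).comp α) (fun _ => rfl) (fun _ => rfl) c3,
      cl_const, cl_const, Path.Homotopic.Quotient.trans_refl]

theorem unroll_reroll [LocallyCompactSpace A] (α : C(A, A)) :
    ((unroll α).comp (reroll α)).Homotopic (.id _) := by
  have d1 : ∀ x, ZC.hdl (.id _) (dup α) (.inl x, 1) = ZC.inA (.id _) (dup α) (.inr x) :=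
    fun x => ZC.hdl_one _
  have d2 : ∀ x, ZC.hdl (.id _) (dup α) (.inl x, 0) = ZC.inA (.id _) (dup α) (.inl x) :=
    fun x => ZC.hdl_zero _
  have d3 : ∀ x, ZC.hdl (.id _) (dup α) (.inr x, 0) = ZC.inA (.id _) (dup α) (.inr x) :=
    fun x => ZC.hdl_zero _
  have d4 : ∀ x, ZC.hdl (.id _) (dup α) (.inr x, 1) = ZC.inA (.id _) (dup α) (.inl (α x)) :=
    fun x => ZC.hdl_one _
  set i := ZC.inA (.id _) (dup α)
  set h := ZC.hdl (.id _) (dup α)
  have c1 : ∀ w : A, (pre h inlC) (w, 1) = (pre h inrC) (w, 0) := by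
    intro w; exact (d1 w).trans (d3 w).symm
  refine ZC.uhl (sumProdC (const (i.comp inlC)) (pre h inlC)) ?_ ?_
    (sumProdC (const (i.comp inlC)) (cat (pre h inlC) (pre h inrC) c1)) h
    (sumProdC (const (i.comp inlC)) (pre h inlC)) (sumProdC (pre h inlC) (const (i.comp (inlC.comp α))))
    (sumC (i.comp inlC) (i.comp inlC)) (sumC (i.comp inlC) (i.comp (inlC.comp α)))
    (sumC (i.comp inlC) (i.comp inrC)) (sumC (i.comp inrC) (i.comp (inlC.comp α)))
    ?_ ?_ ?_ ?_ ?_ ?_ ?_ ?_ ?_ ?_ ?_ ?_ ?_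
  · rintro (x | x)
    · rfl
    · exact d2 x
  · rintro (x | x)
    · rfl
    · exact d1 x
  · rintro (x | x) t <;> rfl
  · rintro (x | x) t <;> rfl
  · rintro (x | x) t <;> rfl
  · rintro (x | x) t <;> rfl
  · rintro (x | x)
    · rfl
    · simp [d2]
  · rintro (x | x)
    · rfl
    · simp [d4]
  · rintro (x | x)
    · exact d2 x
    · rfl
  · rintro (x | x)
    · exact d1 x
    · rfl
  · rintro (x | x)
    · rfl
    · exact d2 x
  · rintro (x | x)
    · rfl
    · exact d1 x
  · rintro (x | x)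
    · exact d2 x
    · exact d3 x
  · rintro (x | x)
    · exact d1 x
    · exact d4 x
  · apply cl_sum_ext
    · rw [PHQ.map_trans, PHQ.map_trans, cl_preC, cl_preC, cl_preC, cl_preC]
      rfl
    · rw [PHQ.map_trans, PHQ.map_trans, cl_preC, cl_preC, cl_preC, cl_preC]
      have e1 : ∀ w, pre h inlC (w, 0) = i.comp inlC w := d2
      have e2 : ∀ w, pre h inlC (w, 1) = i.comp inrC w := d1
      have e3 : ∀ w, pre h inrC (w, 1) = i.comp (inlC.comp α) w := d4
      have e4 := cl_cat (q := pre h inlC) (q' := pre h inrC) (h := c1) _ _ _ e1 e2 e3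
      have e5 := cl_const (i.comp (inlC.comp α))
      refine (congrArg (fun p => Path.Homotopic.Quotient.trans _ p) e5).trans ?_
      refine (Path.Homotopic.Quotient.trans_refl _).trans ?_
      exact e4

theorem isHE_unroll [LocallyCompactSpace A] (α : C(A, A)) : IsHE (unroll α) :=
  ⟨reroll α, reroll_unroll α, unroll_reroll α⟩

end MT

/-! ### Sums and equivalences -/

section Sums

variable {A B C D Z : Type} [TopologicalSpace A] [TopologicalSpace B] [TopologicalSpace C]
  [TopologicalSpace D] [TopologicalSpace Z]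

/-- Sum of maps. -/
def sumMapC (f : C(A, C)) (g : C(B, D)) : C(A ⊕ B, C ⊕ D) := sumC (inlC.comp f) (inrC.comp g)

@[simp] theorem sumMapC_inl (f : C(A, C)) (g : C(B, D)) (x : A) :
    sumMapC f g (.inl x) = .inl (f x) := rfl
@[simp] theorem sumMapC_inr (f : C(A, C)) (g : C(B, D)) (x : B) :
    sumMapC f g (.inr x) = .inr (g x) := rfl

theorem homotopic_sumC {f f' : C(A, Z)} {g g' : C(B, Z)} (h : f.Homotopic f')
    (h' : g.Homotopic g') : (sumC f g).Homotopic (sumC f' g') := by
  obtain ⟨F⟩ := h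
  obtain ⟨G⟩ := h'
  refine ⟨⟨(sumProdC (F.toContinuousMap.comp .prodSwap) (G.toContinuousMap.comp .prodSwap)).comp
    .prodSwap, ?_, ?_⟩⟩
  · rintro (x | x)
    · exact F.apply_zero x
    · exact G.apply_zero x
  · rintro (x | x)
    · exact F.apply_one x
    · exact G.apply_one x

theorem IsHE.of_inv_eq {f : C(A, B)} {g : C(B, A)} (h1 : g.comp f = .id A) (h2 : f.comp g = .id B) :
    IsHE f := ⟨g, h1 ▸ .refl _, h2 ▸ .refl _⟩

theorem IsHE.sumMapC {f : C(A, C)} {g : C(B, D)} (hf : IsHE f) (hg : IsHE g) :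
    IsHE (sumMapC f g) := by
  obtain ⟨f', h1, h2⟩ := hf
  obtain ⟨g', h3, h4⟩ := hg
  refine ⟨Pool.H74.sumMapC f' g', ?_, ?_⟩
  · have e1 : (Pool.H74.sumMapC f' g').comp (Pool.H74.sumMapC f g) =
        sumC (inlC.comp (f'.comp f)) (inrC.comp (g'.comp g)) := by ext (x | x) <;> rfl
    have e2 : (.id (A ⊕ B) : C(A ⊕ B, A ⊕ B)) = sumC (inlC.comp (.id A)) (inrC.comp (.id B)) := by
      ext (x | x) <;> rfl
    rw [e1, e2]
    exact homotopic_sumC (hleft _ h1) (hleft _ h3)
  · have e1 : (Pool.H74.sumMapC f g).comp (Pool.H74.sumMapC f' g') =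
        sumC (inlC.comp (f.comp f')) (inrC.comp (g.comp g')) := by ext (x | x) <;> rfl
    have e2 : (.id (C ⊕ D) : C(C ⊕ D, C ⊕ D)) = sumC (inlC.comp (.id C)) (inrC.comp (.id D)) := by
      ext (x | x) <;> rfl
    rw [e1, e2]
    exact homotopic_sumC (hleft _ h2) (hleft _ h4)

end Sums

namespace ZC

section Split

variable {A W A' W' A₂ W₂ : Type} [TopologicalSpace A] [TopologicalSpace W] [TopologicalSpace A']
  [TopologicalSpace W'] [TopologicalSpace A₂] [TopologicalSpace W₂]
  {a b : C(W, A)} {a' b' : C(W', A')} {a₂ b₂ : C(W₂, A₂)}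

variable (a b a' b') in
/-- The canonical homeomorphism from the sum of two homotopy coequalizers. -/
def join : C(ZC a b ⊕ ZC a' b', ZC (sumMapC a a') (sumMapC b b')) :=
  sumC (map inlC inlC (fun _ => rfl) (fun _ => rfl)) (map inrC inrC (fun _ => rfl) (fun _ => rfl))

variable (a b a' b') in
/-- Its inverse. -/
def split : C(ZC (sumMapC a a') (sumMapC b b'), ZC a b ⊕ ZC a' b') :=
  desc (sumMapC (inA _ _) (inA _ _)) (sumProdC (inlC.comp (hdl _ _)) (inrC.comp (hdl _ _)))
    (by rintro (w | w) <;> simp) (by rintro (w | w) <;> simp)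

theorem isHE_join : IsHE (join a b a' b') := by
  refine IsHE.of_inv_eq (g := split a b a' b') ?_ ?_
  · ext (x | x)
    · induction x using ind with
      | h1 x => rfl
      | h2 w t => rfl
    · induction x using ind with
      | h1 x => rfl
      | h2 w t => rfl
  · apply hom_ext
    · rintro (x | x) <;> rfl
    · rintro ⟨w | w, t⟩ <;> rfl

/-- Coproduct decompositions of the vertex and handle spaces give one of the homotopy coequalizer. -/
theorem isHE_sumC_map [LocallyCompactSpace W] [LocallyCompactSpace W'] [LocallyCompactSpace W₂]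
    {g : C(A, A₂)} {g' : C(A', A₂)} {k : C(W, W₂)} {k' : C(W', W₂)}
    (ha : ∀ w, g (a w) = a₂ (k w)) (hb : ∀ w, g (b w) = b₂ (k w))
    (ha' : ∀ w, g' (a' w) = a₂ (k' w)) (hb' : ∀ w, g' (b' w) = b₂ (k' w))
    (hg : IsHE (sumC g g')) (hk : IsHE (sumC k k')) :
    IsHE (sumC (map (a' := a₂) (b' := b₂) g k ha hb) (map (a' := a₂) (b' := b₂) g' k' ha' hb')) := by
  have h1 : IsHE (map (a := sumMapC a a') (b := sumMapC b b') (a' := a₂) (b' := b₂) (sumC g g')
      (sumC k k') (by rintro (w | w) <;> simp [ha, ha']) (by rintro (w | w) <;> simp [hb, hb'])) :=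
    isHE_map _ _ hg hk
  have h2 := h1.comp (isHE_join (a := a) (b := b) (a' := a') (b' := b'))
  convert h2 using 1
  ext (x | x)
  · induction x using ind with
    | h1 x => rfl
    | h2 w t => rfl
  · induction x using ind with
    | h1 x => rfl
    | h2 w t => rfl

end Split

end ZC

namespace MT

section

variable {A A' A₂ : Type} [TopologicalSpace A] [TopologicalSpace A'] [TopologicalSpace A₂]
  {α : C(A, A)} {α' : C(A', A')} {α₂ : C(A₂, A₂)}

theorem isHE_sumC_map [LocallyCompactSpace A] [LocallyCompactSpace A'] [LocallyCompactSpace A₂]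
    {g : C(A, A₂)} {g' : C(A', A₂)} (h : ∀ x, g (α x) = α₂ (g x)) (h' : ∀ x, g' (α' x) = α₂ (g' x))
    (hg : IsHE (sumC g g')) : IsHE (sumC (map g h) (map g' h')) :=
  ZC.isHE_sumC_map _ _ _ _ hg hg

/-- Unrolling along a decomposition of `A₂` into two copies of `A`. -/
noncomputable def unrollTo (i₀ i₁ : C(A, A₂)) (h0 : ∀ x, α₂ (i₀ x) = i₁ x)
    (h1 : ∀ x, α₂ (i₁ x) = i₀ (α x)) : C(MT α, MT α₂) :=
  ZC.desc ((ZC.inA _ _).comp i₀)
    (cat (pre (ZC.hdl (.id _) α₂) i₀) (pre (ZC.hdl (.id _) α₂) i₁)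
      (by intro w; simp [h0])) (by intro w; simp) (by intro w; simp [h1])

@[simp] theorem unrollTo_inA (i₀ i₁ : C(A, A₂)) (h0 : ∀ x, α₂ (i₀ x) = i₁ x)
    (h1 : ∀ x, α₂ (i₁ x) = i₀ (α x)) (x : A) :
    unrollTo i₀ i₁ h0 h1 (ZC.inA _ _ x) = ZC.inA _ _ (i₀ x) := rfl

theorem isHE_unrollTo [LocallyCompactSpace A] [LocallyCompactSpace A₂] {i₀ i₁ : C(A, A₂)}
    (h0 : ∀ x, α₂ (i₀ x) = i₁ x) (h1 : ∀ x, α₂ (i₁ x) = i₀ (α x)) (h : IsHE (sumC i₀ i₁)) :
    IsHE (unrollTo i₀ i₁ h0 h1) := by
  have e1 : IsHE (map (α := dup α) (α' := α₂) (sumC i₀ i₁)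
      (by rintro (x | x) <;> simp [h0, h1])) := isHE_map _ h
  have e2 := e1.comp (isHE_unroll α)
  convert e2 using 1
  apply ZC.hom_ext
  · intro x; rfl
  · rintro ⟨x, t⟩
    exact (congrArg (fun u : C(A × I, MT α₂) => u (x, t)) (comp_cat (map (α := dup α) (α' := α₂)
      (sumC i₀ i₁) (by rintro (x | x) <;> simp [h0, h1])) (pre (ZC.hdl (.id _) (dup α)) inlC)
      (pre (ZC.hdl (.id _) (dup α)) inrC) (by intro w; simp))).symm

end

end MT

end Pool.H74
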